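import Pool.Agent.Lib.MP_174f4a_gt.SC.Spec

/-!
# Module CMA: a compact set with an uncountable image in `ℝ ^ ℕ` carries a diffused measure
-/

set_option autoImplicit false
set_option linter.style.haveILetI false

namespace Pool.Agent.Lib.MP_174f4a_gt.SC

open Topology Filter Set MeasureTheory

universe u v

namespace CMAM

/-- A diffused Borel probability measure on an uncountable Polish space. -/
lemma exists_diffused (Y : Type*) [TopologicalSpace Y] [PolishSpace Y] [MeasurableSpace Y]
    [BorelSpace Y] (hY : ¬ Countable Y) :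
    ∃ l : Measure Y, IsProbabilityMeasure l ∧ ∀ y, l {y} = 0 := by
  have hI : ¬ Countable unitInterval := by
    intro h
    have h1 : (unitInterval : Set ℝ).Countable := h.to_set
    have h2 : volume (unitInterval : Set ℝ) = 0 := h1.measure_zero volume
    have h3 : volume (unitInterval : Set ℝ) = 1 := by
      change volume (Set.Icc (0 : ℝ) 1) = 1
      simp
    rw [h3] at h2
    exact one_ne_zero h2
  let e : unitInterval ≃ᵐ Y := PolishSpace.measurableEquivOfNotCountable hI hY
  refine ⟨(volume : Measure unitInterval).map e, ?_, fun y => ?_⟩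
  · exact Measure.isProbabilityMeasure_map e.measurable.aemeasurable
  · rw [Measure.map_apply e.measurable (measurableSet_singleton y)]
    have : e ⁻¹' {y} = {e.symm y} := by
      ext t
      simp only [mem_preimage, mem_singleton_iff]
      constructor
      · rintro rfl; simp
      · rintro rfl; simp
    rw [this]
    exact measure_singleton _

section lift

variable {Z Y : Type*} [TopologicalSpace Z] [CompactSpace Z] [T2Space Z]
  [TopologicalSpace Y] [CompactSpace Y] [T2Space Y] (q : C(Z, Y))

/-- composition with `q`. -/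
noncomputable def qs : C(Y, ℝ) →ₗ[ℝ] C(Z, ℝ) where
  toFun f := f.comp q
  map_add' _ _ := rfl
  map_smul' _ _ := rfl

omit [CompactSpace Z] [T2Space Z] [CompactSpace Y] [T2Space Y] in
lemma qs_inj (hq : Function.Surjective q) : Function.Injective (qs q) := by
  intro f g h
  ext y
  obtain ⟨z, rfl⟩ := hq y
  exact congrArg (fun k : C(Z, ℝ) => k z) h

omit [T2Space Z] [CompactSpace Y] [T2Space Y] in
/-- A positive functional on `C(Y)` lifts to a positive functional on `C(Z)`. -/
lemma exists_lift (hq : Function.Surjective q) (I : C(Y, ℝ) →ₗ[ℝ] ℝ)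
    (hI : ∀ f, 0 ≤ f → 0 ≤ I f) :
    ∃ J : C(Z, ℝ) →ₗ[ℝ] ℝ, (∀ f, 0 ≤ f → 0 ≤ J f) ∧ ∀ f : C(Y, ℝ), J (f.comp q) = I f := by
  let e := LinearEquiv.ofInjective (qs q) (qs_inj q hq)
  let F : C(Z, ℝ) →ₗ.[ℝ] ℝ := ⟨LinearMap.range (qs q), I.comp e.symm.toLinearMap⟩
  have hF : ∀ f : C(Y, ℝ), F (e f) = I f := by
    intro f
    change I (e.symm (e f)) = I f
    rw [LinearEquiv.symm_apply_apply]
  have he : ∀ f : C(Y, ℝ), ((e f : LinearMap.range (qs q)) : C(Z, ℝ)) = f.comp q := fun f => rfl
  obtain ⟨J, hJ1, hJ2⟩ := riesz_extension (PointedCone.positive ℝ C(Z, ℝ)) F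
    (by
      intro x hx
      obtain ⟨f, rfl⟩ := e.surjective x
      rw [hF]
      apply hI
      rw [PointedCone.mem_positive] at hx
      intro y
      obtain ⟨z, rfl⟩ := hq y
      exact hx z)
    (by
      intro y
      refine ⟨e (ContinuousMap.const Y ‖y‖), ?_⟩
      rw [PointedCone.mem_positive, he]
      intro z
      have h1 := y.norm_coe_le_norm z
      have h2 := neg_abs_le (y z)
      rw [Real.norm_eq_abs] at h1
      change (0 : ℝ) ≤ ‖y‖ + y z
      linarith)
  refine ⟨J, fun f hf => hJ2 f ((PointedCone.mem_positive ℝ _).2 hf), fun f => ?_⟩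
  have := hJ1 (e f)
  rw [hF] at this
  rw [← this]
  rfl

end lift

/-- Lifting a measure along a continuous surjection of compact Hausdorff spaces. -/
lemma exists_measure_lift {Z Y : Type*} [TopologicalSpace Z] [CompactSpace Z] [T2Space Z]
    [MeasurableSpace Z] [BorelSpace Z]
    [TopologicalSpace Y] [CompactSpace Y] [T2Space Y] [MeasurableSpace Y] [BorelSpace Y]
    [HasOuterApproxClosed Y]
    (q : C(Z, Y)) (hq : Function.Surjective q) (l : Measure Y) [IsFiniteMeasure l] :
    ∃ m : Measure Z, IsFiniteMeasure m ∧ m.map q = l := by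
  have hint : ∀ f : C(Y, ℝ), Integrable f l := fun f =>
    f.continuous.integrable_of_hasCompactSupport (HasCompactSupport.of_compactSpace f)
  let I : C(Y, ℝ) →ₗ[ℝ] ℝ :=
    { toFun := fun f => ∫ y, f y ∂l
      map_add' := fun f g => integral_add (hint f) (hint g)
      map_smul' := fun c f => integral_const_mul c _ }
  obtain ⟨J, hJ1, hJ2⟩ := exists_lift q hq I (fun f hf => integral_nonneg fun y => hf y)
  let J' : CompactlySupportedContinuousMap Z ℝ →ₗ[ℝ] ℝ :=
    { toFun := fun f => J f.toContinuousMap
      map_add' := fun f g => J.map_add f.toContinuousMap g.toContinuousMap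
      map_smul' := fun c f => J.map_smul c f.toContinuousMap }
  let P : CompactlySupportedContinuousMap Z ℝ →ₚ[ℝ] ℝ :=
    PositiveLinearMap.mk₀ J' (fun f hf => hJ1 _ fun z => hf z)
  let m : Measure Z := RealRMK.rieszMeasure P
  have hm : IsFiniteMeasure m := inferInstance
  refine ⟨m, hm, ?_⟩
  have : IsFiniteMeasure (m.map q) := Measure.isFiniteMeasure_map m q
  apply ext_of_forall_integral_eq_of_IsFiniteMeasure
  intro f
  rw [integral_map q.continuous.measurable.aemeasurable
    f.continuous.aestronglyMeasurable]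
  have h1 := RealRMK.integral_rieszMeasure P
    (⟨f.toContinuousMap.comp q, HasCompactSupport.of_compactSpace _⟩ :
      CompactlySupportedContinuousMap Z ℝ)
  have h2 := hJ2 f.toContinuousMap
  exact h1.trans h2

end CMAM

theorem specCMA : SpecCMA := by
  intro X _ _ K hK h hh hunc hfin
  classical
  -- the compact spaces
  have : CompactSpace K := isCompact_iff_compactSpace.1 hK
  have hY : IsCompact (h '' K) := hK.image hh
  have : CompactSpace (h '' K) := isCompact_iff_compactSpace.1 hY
  have : PolishSpace (h '' K) := hY.isClosed.polishSpace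
  letI : MeasurableSpace K := borel K
  have : BorelSpace K := ⟨rfl⟩
  letI : MeasurableSpace (h '' K : Set (ℕ → ℝ)) := borel _
  have : BorelSpace (h '' K : Set (ℕ → ℝ)) := ⟨rfl⟩
  letI := TopologicalSpace.upgradeIsCompletelyMetrizable (h '' K : Set (ℕ → ℝ))
  have hYc : ¬ Countable (h '' K) := fun hc => hunc hc.to_set
  obtain ⟨l, hl1, hl2⟩ := CMAM.exists_diffused (h '' K : Set (ℕ → ℝ)) hYc
  let q : C(K, (h '' K : Set (ℕ → ℝ))) :=
    ⟨fun z => ⟨h z, mem_image_of_mem h z.2⟩, (hh.comp continuous_subtype_val).subtype_mk _⟩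
  have hq : Function.Surjective q := by
    rintro ⟨y, x, hx, rfl⟩
    exact ⟨⟨x, hx⟩, rfl⟩
  obtain ⟨m, hm1, hm2⟩ := CMAM.exists_measure_lift q hq l
  -- Baire sets are Borel
  have hmeas : ∀ B : Set X, MeasurableSet[baireSigma X] B →
      MeasurableSet ((Subtype.val : K → X) ⁻¹' B) := by
    have : @Measurable K X _ (baireSigma X) (Subtype.val : K → X) := by
      apply measurable_generateFrom
      rintro U ⟨f, hf, rfl⟩
      exact (isOpen_ne_fun (hf.comp continuous_subtype_val) continuous_const).measurableSet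
    exact fun B hB => this hB
  let ν : Set X → ℝ := fun B => (m ((Subtype.val : K → X) ⁻¹' B)).toReal
  have hν : ContSubmeasure ν := by
    refine ⟨by simp [ν], fun A B _ _ hAB => ?_, fun A B _ _ => ?_, fun B hB hanti hempty => ?_⟩
    · exact ENNReal.toReal_mono (measure_ne_top _ _) (measure_mono (preimage_mono hAB))
    · change (m ((Subtype.val : K → X) ⁻¹' (A ∪ B))).toReal ≤ _
      rw [preimage_union]
      have := measure_union_le (μ := m) ((Subtype.val : K → X) ⁻¹' A)
        ((Subtype.val : K → X) ⁻¹' B)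
      have h2 := ENNReal.toReal_mono (by finiteness) this
      rwa [ENNReal.toReal_add (measure_ne_top _ _) (measure_ne_top _ _)] at h2
    · have h1 : Tendsto (fun n => m ((Subtype.val : K → X) ⁻¹' (B n))) atTop
          (𝓝 (m (⋂ n, (Subtype.val : K → X) ⁻¹' (B n)))) := by
        apply tendsto_measure_iInter_atTop
        · exact fun n => (hmeas _ (hB n)).nullMeasurableSet
        · exact fun i j hij => preimage_mono (hanti hij)
        · exact ⟨0, measure_ne_top _ _⟩
      rw [← preimage_iInter, hempty, preimage_empty, measure_empty] at h1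
      have := (ENNReal.tendsto_toReal (by simp)).comp h1
      exact this
  obtain ⟨F, hF, hF2⟩ := hfin ν hν (1 / 2) (by norm_num)
  -- the cozero set
  have hFc : IsClosed (h '' F) := (hF.image h).isClosed
  set U : Set X := h ⁻¹' (h '' F)ᶜ with hU
  have hUc : IsCoz U := by
    rcases F.eq_empty_or_nonempty with hFe | hFn
    · rw [hU, hFe]
      simpa using IsCoz.univ
    · letI := TopologicalSpace.upgradeIsCompletelyMetrizable (ℕ → ℝ)
      refine ⟨fun x => Metric.infDist (h x) (h '' F),
        (Metric.continuous_infDist_pt _).comp hh, ?_⟩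
      ext x
      rw [hU, mem_preimage, mem_compl_iff, mem_ofPred_eq]
      rw [not_iff_comm, not_ne_iff]
      exact (hFc.mem_iff_infDist_zero (hFn.image h)).symm
  have hdisj : Disjoint U F := by
    rw [Set.disjoint_left]
    intro x hx hxF
    exact hx (mem_image_of_mem h hxF)
  have h1 := hF2 U hUc hdisj
  have h2 : (Subtype.val : K → X) ⁻¹' U =
      q ⁻¹' ((Subtype.val : (h '' K : Set (ℕ → ℝ)) → (ℕ → ℝ)) ⁻¹' (h '' F))ᶜ := rfl
  have hfinset : ((Subtype.val : (h '' K : Set (ℕ → ℝ)) → (ℕ → ℝ)) ⁻¹' (h '' F)).Finite :=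
    (hF.image h).preimage Subtype.val_injective.injOn
  have h3 : l ((Subtype.val : (h '' K : Set (ℕ → ℝ)) → (ℕ → ℝ)) ⁻¹' (h '' F)) = 0 := by
    have : NullSingletonClass l := ⟨hl2⟩
    exact hfinset.measure_zero l
  have h4 : m ((Subtype.val : K → X) ⁻¹' U) = 1 := by
    rw [h2, ← Measure.map_apply q.continuous.measurable hfinset.measurableSet.compl, hm2,
      prob_compl_eq_one_iff hfinset.measurableSet]
    exact h3
  have h5 : ν U = 1 := by
    change (m ((Subtype.val : K → X) ⁻¹' U)).toReal = 1
    rw [h4]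
    simp
  rw [h5] at h1
  norm_num at h1

end Pool.Agent.Lib.MP_174f4a_gt.SC
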