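import Pool.Agent.Lib.MP_174f4a_gt.SC.Spec

/-!
# CMB: `C_p(X)` is a Frechet-Urysohn space if the finite powers of `X` are Lindelöf and all
continuous images of `X` in `ℝ ^ ℕ` are countable
-/

set_option autoImplicit false

namespace Pool.Agent.Lib.MP_174f4a_gt.SC

open Topology Filter Set MeasureTheory

universe u v

namespace CMBM

variable {X : Type u} [TopologicalSpace X]

/-- finitely many values of a function in the closure are approximated -/
lemma approx {A : Set (Cp X)} {f₀ : Cp X} (h : f₀ ∈ closure A) {n : ℕ} (x : Fin n → X) (k : ℕ) :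
    ∃ f ∈ A, ∀ i, |(f : X → ℝ) (x i) - (f₀ : X → ℝ) (x i)| < 1 / ((k : ℝ) + 1) := by
  have ho : IsOpen {f : Cp X | ∀ i, |(f : X → ℝ) (x i) - (f₀ : X → ℝ) (x i)| <
      1 / ((k : ℝ) + 1)} := by
    rw [Set.ofPred_forall]
    refine isOpen_iInter_of_finite fun i => ?_
    refine isOpen_lt ?_ continuous_const
    exact (((continuous_apply (x i)).comp continuous_subtype_val).sub continuous_const).abs
  have hm : f₀ ∈ {f : Cp X | ∀ i, |(f : X → ℝ) (x i) - (f₀ : X → ℝ) (x i)| <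
      1 / ((k : ℝ) + 1)} := by
    intro i
    rw [sub_self, abs_zero]
    positivity
  obtain ⟨f, hf, hfA⟩ := mem_closure_iff.1 h _ ho hm
  exact ⟨f, hfA, hf⟩

end CMBM

open CMBM in
theorem specCMB : SpecCMB.{u} := by
  intro X _ hL hR
  refine ⟨fun A f₀ hf₀ => ?_⟩
  -- (1) a countable subset
  have h1 : ∀ n k : ℕ, ∃ r : Set A, r.Countable ∧ ∀ x : Fin n → X, ∃ f ∈ r,
      ∀ i, |((f : Cp X) : X → ℝ) (x i) - (f₀ : X → ℝ) (x i)| < 1 / ((k : ℝ) + 1) := by
    intro n k
    have := hL n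
    obtain ⟨r, hr, hr2⟩ := (isLindelof_univ (X := Fin n → X)).elim_countable_subcover
      (fun f : A => {x : Fin n → X |
        ∀ i, |((f : Cp X) : X → ℝ) (x i) - (f₀ : X → ℝ) (x i)| < 1 / ((k : ℝ) + 1)})
      (fun f => by
        rw [Set.ofPred_forall]
        refine isOpen_iInter_of_finite fun i => ?_
        refine isOpen_lt ?_ continuous_const
        have c1 : Continuous ((f : Cp X) : X → ℝ) := (f : Cp X).2
        have c2 : Continuous (f₀ : X → ℝ) := f₀.2
        exact ((c1.comp (continuous_apply i)).sub (c2.comp (continuous_apply i))).abs)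
      (fun x _ => by
        obtain ⟨f, hf, hf2⟩ := approx hf₀ x k
        exact mem_iUnion.2 ⟨⟨f, hf⟩, hf2⟩)
    refine ⟨r, hr, fun x => ?_⟩
    obtain ⟨f, hf⟩ := mem_iUnion.1 (hr2 (mem_univ x))
    obtain ⟨hfr, hfx⟩ := mem_iUnion.1 hf
    exact ⟨f, hfr, hfx⟩
  choose r hr1 hr2 using h1
  set A₀ : Set (Cp X) := ⋃ n, ⋃ k, Subtype.val '' r n k with hA₀
  have hcount : A₀.Countable :=
    countable_iUnion fun n => countable_iUnion fun k => (hr1 n k).image _
  have hsub : ∀ f ∈ A₀, f ∈ A := by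
    intro f hf
    obtain ⟨n, hn⟩ := mem_iUnion.1 hf
    obtain ⟨k, a, -, rfl⟩ := mem_iUnion.1 hn
    exact a.2
  have happ : ∀ (n k : ℕ) (x : Fin n → X), ∃ f ∈ A₀,
      ∀ i, |(f : X → ℝ) (x i) - (f₀ : X → ℝ) (x i)| < 1 / ((k : ℝ) + 1) := by
    intro n k x
    obtain ⟨f, hf, hfx⟩ := hr2 n k x
    exact ⟨f, mem_iUnion.2 ⟨n, mem_iUnion.2 ⟨k, f, hf, rfl⟩⟩, hfx⟩
  obtain ⟨a, ha, -⟩ := happ 0 0 Fin.elim0
  obtain ⟨F, hF⟩ := hcount.exists_eq_range ⟨a, ha⟩
  rcases isEmpty_or_nonempty X with hX | hX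
  · refine ⟨fun _ => a, fun _ => hsub a ha, ?_⟩
    have : a = f₀ := Subtype.ext (funext fun x => isEmptyElim x)
    rw [this]
    exact tendsto_const_nhds
  -- (2)
  set h : X → ℕ → ℝ := fun x m => Nat.casesOn m ((f₀ : X → ℝ) x) (fun m => (F m : X → ℝ) x) with hh
  have hcont : Continuous h := by
    refine continuous_pi fun m => ?_
    cases m with
    | zero => exact f₀.2
    | succ m => exact (F m).2
  obtain ⟨e, he⟩ := (hR h hcont).exists_eq_range (range_nonempty h)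
  have hd : ∀ n, ∃ x, h x = e n := by
    intro n
    have : e n ∈ range h := by
      rw [he]
      exact mem_range_self n
    exact this
  choose d hd using hd
  have hg : ∀ n : ℕ, ∃ f ∈ A₀, ∀ i : Fin (n + 1),
      |(f : X → ℝ) (d i) - (f₀ : X → ℝ) (d i)| < 1 / ((n : ℝ) + 1) := fun n =>
    happ (n + 1) n (fun i => d i)
  choose g hg1 hg2 using hg
  refine ⟨g, fun n => hsub _ (hg1 n), ?_⟩
  rw [tendsto_subtype_rng, tendsto_pi_nhds]
  intro x
  obtain ⟨n₀, hn₀⟩ : ∃ n, e n = h x := by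
    have : h x ∈ range e := by
      rw [← he]
      exact mem_range_self x
    exact this
  have hxd : h x = h (d n₀) := by rw [hd, hn₀]
  have e0 : (f₀ : X → ℝ) x = (f₀ : X → ℝ) (d n₀) := congrFun hxd 0
  have e1 : ∀ n, (g n : X → ℝ) x = (g n : X → ℝ) (d n₀) := by
    intro n
    have := hg1 n
    rw [hF] at this
    obtain ⟨m, hm⟩ := this
    rw [← hm]
    exact congrFun hxd (m + 1)
  rw [Metric.tendsto_atTop]
  intro ε hε
  obtain ⟨N, hN⟩ := exists_nat_one_div_lt hε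
  refine ⟨max N n₀, fun n hn => ?_⟩
  have h3 := hg2 n ⟨n₀, by have := le_max_right N n₀; omega⟩
  rw [Real.dist_eq]
  show |(g n : X → ℝ) x - (f₀ : X → ℝ) x| < ε
  rw [e0, e1 n]
  refine h3.trans (lt_of_le_of_lt ?_ hN)
  apply one_div_le_one_div_of_le (by positivity)
  have : N ≤ n := (le_max_left _ _).trans hn
  have : (N : ℝ) ≤ n := by exact_mod_cast this
  linarith

end Pool.Agent.Lib.MP_174f4a_gt.SC
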