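import Pool.Agent.Lib.MP_174f4a_gt.SC.Norm

/-!
The submeasure of a gauge on `C_p(X)`.
-/

set_option autoImplicit false
set_option linter.unusedSectionVars false

namespace Pool.Agent.Lib.MP_174f4a_gt.SC

open Topology Filter Set MeasureTheory

universe u v

variable {X : Type u} [TopologicalSpace X]

/-- a sufficient condition for the continuity of `f p / q` -/
lemma continuous_part {f p q : X → ℝ} (hf : Continuous f) (hp : Continuous p) (hq : Continuous q)
    (h0 : ∀ x, 0 ≤ p x) (h1 : ∀ x, p x ≤ q x) (hz : ∀ x, q x = 0 → f x = 0) :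
    Continuous (fun x => f x * (p x / q x)) := by
  rw [continuous_iff_continuousAt]
  intro x
  by_cases hx : q x = 0
  · have hfx := hz x hx
    have hb : ∀ y, |f y * (p y / q y)| ≤ |f y| := by
      intro y
      rw [abs_mul]
      have h2 : |p y / q y| ≤ 1 := by
        have h3 : 0 ≤ q y := (h0 y).trans (h1 y)
        rw [abs_of_nonneg (div_nonneg (h0 y) h3)]
        exact div_le_one_of_le₀ (h1 y) h3
      calc |f y| * |p y / q y| ≤ |f y| * 1 := mul_le_mul_of_nonneg_left h2 (abs_nonneg _)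
        _ = |f y| := mul_one _
    have hlim : Tendsto (fun y => |f y|) (𝓝 x) (𝓝 0) := by
      have := (hf.abs.tendsto x)
      rwa [hfx, abs_zero] at this
    change Tendsto (fun y => f y * (p y / q y)) (𝓝 x) (𝓝 (f x * (p x / q x)))
    rw [hfx, zero_mul]
    rw [tendsto_zero_iff_abs_tendsto_zero]
    exact squeeze_zero (fun y => abs_nonneg _) hb hlim
  · exact hf.continuousAt.mul (hp.continuousAt.div hq.continuousAt hx)

variable {N : Cp X → ℝ}

/-- the values of the gauge on the functions which vanish outside of `A` -/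
def vals (N : Cp X → ℝ) (A : Set X) : Set ℝ :=
  {s | ∃ f : Cp X, (∀ x, x ∉ A → (f : X → ℝ) x = 0) ∧ N f = s}

/-- the submeasure on cozero sets -/
noncomputable def sub0 (N : Cp X → ℝ) (A : Set X) : ℝ := sSup (vals N A)

lemma Gauge.zero (hN : Gauge N) : N 0 = 0 := by
  have h := hN.seq (fun _ => 0) tendsto_const_nhds
  exact (tendsto_nhds_unique h tendsto_const_nhds).symm

lemma vals_bdd (hN : Gauge N) (A : Set X) : BddAbove (vals N A) := by
  refine ⟨1, ?_⟩
  rintro s ⟨f, _, rfl⟩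
  exact hN.le_one f

lemma vals_nonempty (A : Set X) : (vals N A).Nonempty := ⟨N 0, 0, fun _ _ => rfl, rfl⟩

lemma le_sub0 (hN : Gauge N) {A : Set X} {f : Cp X} (h : ∀ x, x ∉ A → (f : X → ℝ) x = 0) :
    N f ≤ sub0 N A := le_csSup (vals_bdd hN A) ⟨f, h, rfl⟩

lemma sub0_le {A : Set X} {s : ℝ} (h : ∀ f : Cp X, (∀ x, x ∉ A → (f : X → ℝ) x = 0) → N f ≤ s) :
    sub0 N A ≤ s := by
  apply csSup_le (vals_nonempty A)
  rintro _ ⟨f, hf, rfl⟩
  exact h f hf

lemma sub0_nonneg (hN : Gauge N) (A : Set X) : 0 ≤ sub0 N A := by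
  rw [← hN.zero]
  exact le_sub0 hN (fun _ _ => rfl)

lemma sub0_mono (hN : Gauge N) {A B : Set X} (h : A ⊆ B) : sub0 N A ≤ sub0 N B :=
  sub0_le (fun _ hf => le_sub0 hN (fun x hx => hf x (fun hxA => hx (h hxA))))

lemma sub0_empty (hN : Gauge N) : sub0 N (∅ : Set X) = 0 := by
  apply le_antisymm _ (sub0_nonneg hN _)
  apply sub0_le
  intro f hf
  have : f = 0 := by
    apply Subtype.ext
    funext x
    exact hf x (notMem_empty x)
  rw [this, hN.zero]

/-- order continuity, for arbitrary sets -/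
lemma sub0_tendsto (hN : Gauge N) (A : ℕ → Set X) (hA : Antitone A) (h : (⋂ n, A n) = ∅) :
    Tendsto (fun n => sub0 N (A n)) atTop (𝓝 0) := by
  have key : ∀ n : ℕ, ∃ f : Cp X, (∀ x, x ∉ A n → (f : X → ℝ) x = 0) ∧
      sub0 N (A n) ≤ N f + 1 / ((n : ℝ) + 1) := by
    intro n
    have hpos : (0 : ℝ) < 1 / ((n : ℝ) + 1) := by positivity
    obtain ⟨s, ⟨f, hf, rfl⟩, hs⟩ := exists_lt_of_lt_csSup (vals_nonempty (N := N) (A n))
      (show sub0 N (A n) - 1 / ((n : ℝ) + 1) < sub0 N (A n) by linarith)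
    exact ⟨f, hf, by linarith⟩
  choose f hf hs using key
  have hlim : Tendsto f atTop (𝓝 0) := by
    rw [tendsto_Cp_iff]
    intro x
    have hx : ∃ n, x ∉ A n := by
      by_contra hcon
      push Not at hcon
      have : x ∈ (⋂ n, A n) := mem_iInter.mpr hcon
      rw [h] at this
      exact this
    obtain ⟨n, hn⟩ := hx
    have : ∀ᶠ k in atTop, (f k : X → ℝ) x = 0 := by
      filter_upwards [eventually_ge_atTop n] with k hk
      exact hf k x (fun hxk => hn (hA hk hxk))
    exact tendsto_const_nhds.congr' (by filter_upwards [this] with i hi; rw [hi]; rfl)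
  have h1 := (hN.seq f hlim).add tendsto_one_div_add_atTop_nhds_zero_nat
  rw [add_zero] at h1
  exact squeeze_zero (fun n => sub0_nonneg hN _) hs h1

/-- binary subadditivity on cozero sets -/
lemma sub0_union (hN : Gauge N) {U V : Set X} (hU : IsCoz U) (hV : IsCoz V) :
    sub0 N (U ∪ V) ≤ sub0 N U + sub0 N V := by
  obtain ⟨p, hp, rfl⟩ := hU
  obtain ⟨r, hr, rfl⟩ := hV
  apply sub0_le
  intro f hf
  have hq : Continuous (fun x => |p x| + |r x|) := hp.abs.add hr.abs
  have hz : ∀ x, |p x| + |r x| = 0 → (f : X → ℝ) x = 0 := by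
    intro x hx
    have h1 := abs_nonneg (p x)
    have h2 := abs_nonneg (r x)
    apply hf
    simp only [mem_union, mem_ofPred_eq, not_or, not_not]
    exact ⟨abs_eq_zero.mp (by linarith), abs_eq_zero.mp (by linarith)⟩
  have c1 := continuous_part f.2 hp.abs hq (fun x => abs_nonneg _)
    (fun x => by have := abs_nonneg (r x); linarith) hz
  have c2 := continuous_part f.2 hr.abs hq (fun x => abs_nonneg _)
    (fun x => by have := abs_nonneg (p x); linarith) hz
  let f1 : Cp X := ⟨_, c1⟩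
  let f2 : Cp X := ⟨_, c2⟩
  have e : f = f1 + f2 := by
    apply Subtype.ext
    funext x
    change (f : X → ℝ) x = (f : X → ℝ) x * (|p x| / (|p x| + |r x|)) +
      (f : X → ℝ) x * (|r x| / (|p x| + |r x|))
    by_cases hx : |p x| + |r x| = 0
    · rw [hz x hx]; ring
    · rw [← mul_add, ← add_div, div_self hx, mul_one]
  rw [e]
  refine (hN.add f1 f2).trans (add_le_add (le_sub0 hN ?_) (le_sub0 hN ?_))
  · intro x hx
    change (f : X → ℝ) x * (|p x| / (|p x| + |r x|)) = 0
    have : p x = 0 := by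
      by_contra h
      exact hx h
    rw [this]; simp
  · intro x hx
    change (f : X → ℝ) x * (|r x| / (|p x| + |r x|)) = 0
    have : r x = 0 := by
      by_contra h
      exact hx h
    rw [this]; simp

lemma sub0_union_lt (hN : Gauge N) (A : ℕ → Set X) (hA : ∀ k, IsCoz (A k)) :
    ∀ n, sub0 N (⋃ k, ⋃ (_ : k < n), A k) ≤ ∑ k ∈ Finset.range n, sub0 N (A k) := by
  intro n
  induction n with
  | zero =>
    have : (⋃ k, ⋃ (_ : k < 0), A k) = ∅ := by simp
    rw [this, sub0_empty hN]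
    simp
  | succ n ih =>
    have : (⋃ k, ⋃ (_ : k < n + 1), A k) = (⋃ k, ⋃ (_ : k < n), A k) ∪ A n := by
      ext x
      simp only [mem_iUnion, mem_union, exists_prop]
      constructor
      · rintro ⟨k, hk, hx⟩
        rcases Nat.lt_succ_iff_lt_or_eq.mp hk with h | h
        · exact Or.inl ⟨k, h, hx⟩
        · right; rw [← h]; exact hx
      · rintro (⟨k, hk, hx⟩ | hx)
        · exact ⟨k, by omega, hx⟩
        · exact ⟨n, by omega, hx⟩
    rw [this, Finset.sum_range_succ]
    exact (sub0_union hN (IsCoz.iUnion_lt A hA n) (hA n)).trans (by linarith)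

/-- countable subadditivity on cozero sets -/
lemma sub0_iUnion (hN : Gauge N) (A : ℕ → Set X) (hA : ∀ k, IsCoz (A k)) {s : ℝ}
    (hs : ∀ n, ∑ k ∈ Finset.range n, sub0 N (A k) ≤ s) : sub0 N (⋃ k, A k) ≤ s := by
  obtain ⟨w, w1, w2, w3, w4⟩ := exists_weights A hA
  have hsum := summable_weights w2 w3
  apply sub0_le
  intro f hf
  let q : X → ℝ := fun x => ∑' k, w k x
  let p : ℕ → X → ℝ := fun n x => ∑ k ∈ Finset.range n, w k x
  have hq : Continuous q := continuous_tsum_weights w1 w2 w3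
  have hp : ∀ n, Continuous (p n) := fun n => continuous_finsetSum _ (fun k _ => w1 k)
  have hp0 : ∀ n x, 0 ≤ p n x := fun n x => Finset.sum_nonneg (fun k _ => w2 k x)
  have hpq : ∀ n x, p n x ≤ q x := fun n x => (hsum x).sum_le_tsum _ (fun k _ => w2 k x)
  have hz : ∀ x, q x = 0 → (f : X → ℝ) x = 0 := by
    intro x hx
    apply hf
    simp only [mem_iUnion, not_exists]
    intro k hk
    rw [w4 k] at hk
    have h1 := (hsum x).le_tsum k (fun j _ => w2 j x)
    have h2 : 0 < w k x := lt_of_le_of_ne (w2 k x) (Ne.symm hk)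
    have h3 : q x = ∑' k, w k x := rfl
    linarith
  have c1 : ∀ n, Continuous (fun x => (f : X → ℝ) x * (p n x / q x)) := fun n =>
    continuous_part f.2 (hp n) hq (hp0 n) (hpq n) hz
  let f1 : ℕ → Cp X := fun n => ⟨_, c1 n⟩
  let f2 : ℕ → Cp X := fun n => f - f1 n
  have e : ∀ n, f = f1 n + f2 n := fun n => by simp only [f2]; abel
  have hlim : Tendsto f2 atTop (𝓝 0) := by
    rw [tendsto_Cp_iff]
    intro x
    change Tendsto (fun n => (f : X → ℝ) x - (f : X → ℝ) x * (p n x / q x)) atTop (𝓝 0)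
    by_cases hx : q x = 0
    · rw [hz x hx]
      simp
    · have h1 : Tendsto (fun n => p n x) atTop (𝓝 (q x)) := (hsum x).hasSum.tendsto_sum_nat
      have h2 : Tendsto (fun n => p n x / q x) atTop (𝓝 (q x / q x)) := h1.div_const _
      rw [div_self hx] at h2
      have h3 := (tendsto_const_nhds (x := (f : X → ℝ) x)).sub
        ((tendsto_const_nhds (x := (f : X → ℝ) x)).mul h2)
      simpa using h3
  have h4 := hN.seq f2 hlim
  have h5 : ∀ n, N f ≤ s + N (f2 n) := by
    intro n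
    have h6 : N (f1 n) ≤ s := by
      refine (le_sub0 hN (A := ⋃ k, ⋃ (_ : k < n), A k) ?_).trans
        ((sub0_union_lt hN A hA n).trans (hs n))
      intro x hx
      change (f : X → ℝ) x * (p n x / q x) = 0
      have : p n x = 0 := by
        apply Finset.sum_eq_zero
        intro k hk
        by_contra hne
        apply hx
        simp only [mem_iUnion]
        refine ⟨k, Finset.mem_range.mp hk, ?_⟩
        rw [w4 k]
        exact hne
      rw [this]; simp
    calc N f = N (f1 n + f2 n) := by rw [← e n]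
      _ ≤ N (f1 n) + N (f2 n) := hN.add _ _
      _ ≤ s + N (f2 n) := by linarith
  have h6 : Tendsto (fun n => s + N (f2 n)) atTop (𝓝 (s + 0)) := tendsto_const_nhds.add h4
  rw [add_zero] at h6
  exact ge_of_tendsto' h6 h5

/-- countable subadditivity with geometric bounds -/
lemma sub0_iUnion_geom (hN : Gauge N) (A : ℕ → Set X) (hA : ∀ k, IsCoz (A k)) {ε : ℝ}
    (hε : 0 ≤ ε) (hs : ∀ k, sub0 N (A k) ≤ ε / 2 * (1 / 2 : ℝ) ^ k) :
    sub0 N (⋃ k, A k) ≤ ε := by
  apply sub0_iUnion hN A hA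
  intro n
  calc ∑ k ∈ Finset.range n, sub0 N (A k)
      ≤ ∑ k ∈ Finset.range n, ε / 2 * (1 / 2 : ℝ) ^ k := Finset.sum_le_sum (fun k _ => hs k)
    _ = ε / 2 * ∑ k ∈ Finset.range n, (1 / 2 : ℝ) ^ k := by rw [Finset.mul_sum]
    _ ≤ ε / 2 * 2 := by
        apply mul_le_mul_of_nonneg_left _ (by linarith)
        have := sum_geometric_two_le n
        exact this
    _ = ε := by ring

/-- regular sets -/
def Reg (N : Cp X → ℝ) (B : Set X) : Prop :=
  ∀ ε : ℝ, 0 < ε → ∃ Z U : Set X, IsCoz Zᶜ ∧ IsCoz U ∧ Z ⊆ B ∧ B ⊆ U ∧ sub0 N (U ∩ Zᶜ) ≤ ε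

lemma Reg.coz (hN : Gauge N) {U : Set X} (hU : IsCoz U) : Reg N U := by
  intro ε hε
  obtain ⟨g, hg, rfl⟩ := hU
  let T : ℕ → Set X := fun n => {x | g x ≠ 0} ∩ {x | |g x| < 1 / ((n : ℝ) + 1)}
  have hanti : Antitone T := by
    intro n m hnm x hx
    refine ⟨hx.1, ?_⟩
    have h1 := hx.2
    simp only [mem_ofPred_eq] at h1 ⊢
    refine lt_of_lt_of_le h1 ?_
    apply one_div_le_one_div_of_le (by positivity)
    have : (n : ℝ) ≤ m := by exact_mod_cast hnm
    linarith
  have hint : (⋂ n, T n) = ∅ := by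
    rw [eq_empty_iff_forall_notMem]
    intro x hx
    have h0 : g x ≠ 0 := (mem_iInter.mp hx 0).1
    obtain ⟨n, hn⟩ := exists_nat_one_div_lt (abs_pos.mpr h0)
    have h1 := (mem_iInter.mp hx n).2
    simp only [mem_ofPred_eq] at h1
    linarith
  obtain ⟨n, hn⟩ := ((sub0_tendsto hN T hanti hint).eventually (gt_mem_nhds hε)).exists
  refine ⟨{x | |g x| < 1 / ((n : ℝ) + 1)}ᶜ, {x | g x ≠ 0}, ?_, ⟨g, hg, rfl⟩, ?_, subset_rfl, ?_⟩
  · rw [compl_compl]
    exact IsCoz.lt hg.abs _
  · intro x hx h0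
    apply hx
    simp only [mem_ofPred_eq]
    rw [h0, abs_zero]
    positivity
  · rw [compl_compl]
    exact hn.le

lemma Reg.compl {B : Set X} (h : Reg N B) : Reg N Bᶜ := by
  intro ε hε
  obtain ⟨Z, U, h1, h2, h3, h4, h5⟩ := h ε hε
  refine ⟨Uᶜ, Zᶜ, by rwa [compl_compl], h1, compl_subset_compl.mpr h4, compl_subset_compl.mpr h3,
    ?_⟩
  rw [compl_compl, inter_comm]
  exact h5

lemma Reg.iUnion (hN : Gauge N) (B : ℕ → Set X) (h : ∀ k, Reg N (B k)) : Reg N (⋃ k, B k) := by
  intro ε hε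
  have key : ∀ k : ℕ, ∃ Z U : Set X, IsCoz Zᶜ ∧ IsCoz U ∧ Z ⊆ B k ∧ B k ⊆ U ∧
      sub0 N (U ∩ Zᶜ) ≤ (ε / 2) / 2 * (1 / 2 : ℝ) ^ k := fun k => h k _ (by positivity)
  choose Z U h1 h2 h3 h4 h5 using key
  let W : Set X := ⋃ k, (U k ∩ (Z k)ᶜ)
  have hW : IsCoz W := IsCoz.iUnion _ (fun k => (h2 k).inter (h1 k))
  have hW2 : sub0 N W ≤ ε / 2 :=
    sub0_iUnion_geom hN _ (fun k => (h2 k).inter (h1 k)) (by linarith) h5
  obtain ⟨w, hw, hWw⟩ := hW
  let G : ℕ → Set X := fun K => (⋃ k, U k) ∩ (⋂ k, ⋂ (_ : k < K), (Z k)ᶜ)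
  have hG : ∀ K, IsCoz (G K) := fun K =>
    (IsCoz.iUnion U h2).inter (IsCoz.iInter_lt _ h1 K)
  let T : ℕ → Set X := fun K => G K ∩ {x | |w x| < 1 / ((K : ℝ) + 1)}
  have hT : ∀ K, IsCoz (T K) := fun K => (hG K).inter (IsCoz.lt hw.abs _)
  have hanti : Antitone T := by
    intro n m hnm x hx
    refine ⟨⟨hx.1.1, ?_⟩, ?_⟩
    · have h6 := hx.1.2
      simp only [mem_iInter] at h6 ⊢
      intro k hk
      exact h6 k (by omega)
    · have h6 := hx.2
      simp only [mem_ofPred_eq] at h6 ⊢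
      refine lt_of_lt_of_le h6 ?_
      apply one_div_le_one_div_of_le (by positivity)
      have : (n : ℝ) ≤ m := by exact_mod_cast hnm
      linarith
  have hint : (⋂ n, T n) = ∅ := by
    rw [eq_empty_iff_forall_notMem]
    intro x hx
    have hx' := mem_iInter.mp hx
    have hxU := (hx' 0).1.1
    simp only [mem_iUnion] at hxU
    obtain ⟨k, hk⟩ := hxU
    have hxZ : x ∈ (Z k)ᶜ := by
      have h6 := (hx' (k + 1)).1.2
      simp only [mem_iInter] at h6
      exact h6 k (by omega)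
    have hxW : x ∈ W := mem_iUnion.mpr ⟨k, hk, hxZ⟩
    rw [hWw] at hxW
    obtain ⟨n, hn⟩ := exists_nat_one_div_lt (abs_pos.mpr hxW)
    have h6 := (hx' n).2
    simp only [mem_ofPred_eq] at h6
    linarith
  obtain ⟨K, hK⟩ := ((sub0_tendsto hN T hanti hint).eventually
    (gt_mem_nhds (show 0 < ε / 2 by linarith))).exists
  refine ⟨⋃ k, ⋃ (_ : k < K), Z k, ⋃ k, U k, ?_, IsCoz.iUnion U h2, ?_, ?_, ?_⟩
  · have : (⋃ k, ⋃ (_ : k < K), Z k)ᶜ = ⋂ k, ⋂ (_ : k < K), (Z k)ᶜ := by
      simp only [compl_iUnion]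
    rw [this]
    exact IsCoz.iInter_lt _ h1 K
  · intro x hx
    simp only [mem_iUnion] at hx ⊢
    obtain ⟨k, _, hk⟩ := hx
    exact ⟨k, h3 k hk⟩
  · exact iUnion_mono h4
  · have e : (⋃ k, U k) ∩ (⋃ k, ⋃ (_ : k < K), Z k)ᶜ = G K := by
      simp only [compl_iUnion]
      rfl
    rw [e]
    have h6 : G K ⊆ W ∪ T K := by
      intro x hx
      by_cases hxw : w x = 0
      · right
        refine ⟨hx, ?_⟩
        simp only [mem_ofPred_eq]
        rw [hxw, abs_zero]
        positivity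
      · left
        rw [hWw]
        exact hxw
    have h7 := (sub0_mono hN h6).trans (sub0_union hN ⟨w, hw, hWw⟩ (hT K))
    linarith

lemma Reg.of_meas (hN : Gauge N) {B : Set X} (hB : MeasurableSet[baireSigma X] B) : Reg N B := by
  induction B, hB using MeasurableSpace.generateFrom_induction with
  | hC t ht _ => exact Reg.coz hN ht
  | empty => exact Reg.coz hN IsCoz.empty
  | compl t _ ih => exact ih.compl
  | iUnion s _ ih => exact Reg.iUnion hN s ih

/-- the cozero bounds of a set -/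
def ubds (N : Cp X → ℝ) (A : Set X) : Set ℝ := {s | ∃ U : Set X, IsCoz U ∧ A ⊆ U ∧ sub0 N U = s}

/-- the outer submeasure -/
noncomputable def sub1 (N : Cp X → ℝ) (A : Set X) : ℝ := sInf (ubds N A)

lemma ubds_bdd (hN : Gauge N) (A : Set X) : BddBelow (ubds N A) := by
  refine ⟨0, ?_⟩
  rintro s ⟨U, _, _, rfl⟩
  exact sub0_nonneg hN U

lemma ubds_nonempty (A : Set X) : (ubds N A).Nonempty :=
  ⟨_, univ, IsCoz.univ, subset_univ _, rfl⟩

lemma sub1_le (hN : Gauge N) {A U : Set X} (hU : IsCoz U) (h : A ⊆ U) : sub1 N A ≤ sub0 N U :=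
  csInf_le (ubds_bdd hN A) ⟨U, hU, h, rfl⟩

lemma sub1_nonneg (hN : Gauge N) (A : Set X) : 0 ≤ sub1 N A := by
  apply Real.sInf_nonneg
  rintro s ⟨U, _, _, rfl⟩
  exact sub0_nonneg hN U

lemma exists_coz_lt (A : Set X) {ε : ℝ} (hε : 0 < ε) :
    ∃ U : Set X, IsCoz U ∧ A ⊆ U ∧ sub0 N U < sub1 N A + ε := by
  obtain ⟨s, ⟨U, h1, h2, rfl⟩, h3⟩ := exists_lt_of_csInf_lt (ubds_nonempty (N := N) A)
    (show sub1 N A < sub1 N A + ε by linarith)
  exact ⟨U, h1, h2, h3⟩

lemma le_sub1 (hN : Gauge N) {U : Set X} : sub0 N U ≤ sub1 N U := by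
  apply le_csInf (ubds_nonempty U)
  rintro s ⟨V, _, h2, rfl⟩
  exact sub0_mono hN h2

/-- **The outer submeasure of a gauge is a continuous submeasure on the Baire sets.** -/
theorem contSubmeasure_sub1 (hN : Gauge N) : ContSubmeasure (sub1 N) := by
  refine ⟨?_, ?_, ?_, ?_⟩
  · apply le_antisymm _ (sub1_nonneg hN _)
    rw [← sub0_empty hN]
    exact sub1_le hN IsCoz.empty subset_rfl
  · intro A B _ _ hAB
    apply le_csInf (ubds_nonempty B)
    rintro s ⟨V, h1, h2, rfl⟩
    exact sub1_le hN h1 (hAB.trans h2)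
  · intro A B _ _
    apply le_of_forall_pos_le_add
    intro ε hε
    obtain ⟨U, h1, h2, h3⟩ := exists_coz_lt (N := N) A (half_pos hε)
    obtain ⟨V, h4, h5, h6⟩ := exists_coz_lt (N := N) B (half_pos hε)
    have h7 := sub1_le hN (h1.union h4) (union_subset_union h2 h5)
    have h8 := sub0_union hN h1 h4
    linarith
  · intro B hB hanti hint
    rw [Metric.tendsto_atTop]
    intro ε hε
    have key : ∀ k : ℕ, ∃ Z U : Set X, IsCoz Zᶜ ∧ IsCoz U ∧ Z ⊆ B k ∧ B k ⊆ U ∧
        sub0 N (U ∩ Zᶜ) ≤ (ε / 2) / 2 * (1 / 2 : ℝ) ^ k :=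
      fun k => Reg.of_meas hN (hB k) _ (by positivity)
    choose Z U h1 h2 h3 h4 h5 using key
    let W : Set X := ⋃ k, (U k ∩ (Z k)ᶜ)
    have hW : IsCoz W := IsCoz.iUnion _ (fun k => (h2 k).inter (h1 k))
    have hW2 : sub0 N W ≤ ε / 2 :=
      sub0_iUnion_geom hN _ (fun k => (h2 k).inter (h1 k)) (by linarith) h5
    choose g hg hZg using h1
    let O : ℕ → Set X := fun n => ⋂ k, ⋂ (_ : k < n + 1), {x | |g k x| < 1 / ((n : ℝ) + 1)}
    have hO : ∀ n, IsCoz (O n) := fun n =>
      IsCoz.iInter_lt _ (fun k => IsCoz.lt (hg k).abs _) (n + 1)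
    have hOanti : Antitone O := by
      intro n m hnm x hx
      simp only [O, mem_iInter, mem_ofPred_eq] at hx ⊢
      intro k hk
      refine lt_of_lt_of_le (hx k (by omega)) ?_
      apply one_div_le_one_div_of_le (by positivity)
      have : (n : ℝ) ≤ m := by exact_mod_cast hnm
      linarith
    have hzero : ∀ k x, g k x = 0 → x ∈ Z k := by
      intro k x hx
      by_contra hn
      have h6 : x ∈ (Z k)ᶜ := hn
      rw [hZg k] at h6
      exact h6 hx
    have hOint : (⋂ n, O n) = ∅ := by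
      rw [eq_empty_iff_forall_notMem]
      intro x hx
      have hx' := mem_iInter.mp hx
      have h6 : x ∈ (⋂ n, B n) := by
        rw [mem_iInter]
        intro k
        apply h3 k
        apply hzero
        by_contra hne
        obtain ⟨n, hn⟩ := exists_nat_one_div_lt (abs_pos.mpr hne)
        have h7 := hx' (max n k)
        simp only [O, mem_iInter, mem_ofPred_eq] at h7
        have h8 := h7 k (by omega)
        have h9 : 1 / ((max n k : ℕ) + 1 : ℝ) ≤ 1 / ((n : ℝ) + 1) := by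
          apply one_div_le_one_div_of_le (by positivity)
          have : (n : ℝ) ≤ (max n k : ℕ) := by exact_mod_cast le_max_left n k
          linarith
        linarith
      rw [hint] at h6
      exact h6
    obtain ⟨M, hM⟩ := eventually_atTop.mp ((sub0_tendsto hN O hOanti hOint).eventually
      (gt_mem_nhds (show 0 < ε / 2 by linarith)))
    refine ⟨M, fun n hn => ?_⟩
    rw [Real.dist_eq, sub_zero, abs_of_nonneg (sub1_nonneg hN _)]
    have h6 : B n ⊆ W ∪ O n := by
      intro x hx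
      by_cases hcase : ∃ k, k < n + 1 ∧ x ∉ Z k
      · obtain ⟨k, hk, hxk⟩ := hcase
        left
        exact mem_iUnion.mpr ⟨k, h4 k (hanti (by omega) hx), hxk⟩
      · right
        push Not at hcase
        simp only [O, mem_iInter, mem_ofPred_eq]
        intro k hk
        have h7 : g k x = 0 := by
          by_contra hne
          have h8 : x ∈ (Z k)ᶜ := by
            rw [hZg k]; exact hne
          exact h8 (hcase k hk)
        rw [h7, abs_zero]
        positivity
    have h7 := sub1_le hN (hW.union (hO n)) h6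
    have h8 := sub0_union hN hW (hO n)
    have h9 := hM n hn
    linarith

end Pool.Agent.Lib.MP_174f4a_gt.SC
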