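import Pool.Agent.Lib.MP_174f4a_gt.SC.Imp
import Pool.Agent.Lib.MP_174f4a_gt.SC.Sub

/-!
The criterion: `C_p(X)` is an s-group if and only if every continuous submeasure on the Baire sets
of `X` is carried by finite sets, up to `ε`.
-/

set_option autoImplicit false

namespace Pool.Agent.Lib.MP_174f4a_gt.SC

open Topology Filter Set MeasureTheory

universe u v

variable {X : Type u} [TopologicalSpace X]

/-- truncation -/
lemma continuous_trunc (f : Cp X) (c : ℝ) :
    Continuous (fun x => max (-c) (min c ((f : X → ℝ) x))) :=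
  continuous_const.max (continuous_const.min f.2)

/-- a gauge is small on a neighbourhood of zero -/
lemma gauge_nhds (hX : FinitelyCarried X) {N : Cp X → ℝ} (hN : Gauge N) :
    {f | N f < 1 / 2} ∈ 𝓝 (0 : Cp X) := by
  obtain ⟨F, hF, hF2⟩ := hX (sub1 N) (contSubmeasure_sub1 hN) (1 / 8) (by norm_num)
  have hvan : ∀ f : Cp X, (∀ x ∈ F, (f : X → ℝ) x = 0) → N f ≤ 1 / 8 := by
    intro f hf
    have hc : IsCoz {x | (f : X → ℝ) x ≠ 0} := ⟨_, f.2, rfl⟩
    have h1 : N f ≤ sub0 N {x | (f : X → ℝ) x ≠ 0} := by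
      apply le_sub0 hN
      intro x hx
      by_contra h
      exact hx h
    have h2 : Disjoint {x | (f : X → ℝ) x ≠ 0} F := by
      rw [Set.disjoint_left]
      intro x hx hxF
      exact hx (hf x hxF)
    exact h1.trans ((le_sub1 hN).trans (hF2 _ hc h2))
  have hδ : ∃ n : ℕ, ∀ f : Cp X, (∀ x ∈ F, |(f : X → ℝ) x| < 1 / ((n : ℝ) + 1)) → N f < 1 / 2 := by
    by_contra hcon
    push Not at hcon
    choose f hf hf2 using hcon
    let g : ℕ → Cp X := fun n => ⟨_, continuous_trunc (f n) (1 / ((n : ℝ) + 1))⟩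
    have hpos : ∀ n : ℕ, (0 : ℝ) < 1 / ((n : ℝ) + 1) := fun n => by positivity
    have hg : Tendsto g atTop (𝓝 0) := by
      rw [tendsto_Cp_iff]
      intro x
      change Tendsto (fun n : ℕ => max (-(1 / ((n : ℝ) + 1))) (min (1 / ((n : ℝ) + 1))
        ((f n : X → ℝ) x))) atTop (𝓝 0)
      rw [tendsto_zero_iff_abs_tendsto_zero]
      refine squeeze_zero (fun n => abs_nonneg _) (fun n => ?_)
        tendsto_one_div_add_atTop_nhds_zero_nat
      simp only [Function.comp_apply]
      rw [abs_le]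
      refine ⟨le_max_left _ _, max_le ?_ (min_le_left _ _)⟩
      have := hpos n
      linarith
    obtain ⟨n, hn⟩ := ((hN.seq g hg).eventually (gt_mem_nhds (show (0 : ℝ) < 1 / 8 by
      norm_num))).exists
    have h1 : N (f n - g n) ≤ 1 / 8 := by
      apply hvan
      intro x hx
      change (f n : X → ℝ) x - max (-(1 / ((n : ℝ) + 1))) (min (1 / ((n : ℝ) + 1))
        ((f n : X → ℝ) x)) = 0
      have h2 := abs_lt.mp (hf n x hx)
      rw [min_eq_right h2.2.le, max_eq_right h2.1.le, sub_self]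
    have h3 : N (f n) ≤ N (f n - g n) + N (g n) := by
      have := hN.add (f n - g n) (g n)
      rwa [sub_add_cancel] at this
    have h4 := hf2 n
    linarith
  obtain ⟨n, hn⟩ := hδ
  have hnb : {f : Cp X | ∀ x ∈ F, |(f : X → ℝ) x| < 1 / ((n : ℝ) + 1)} ∈ 𝓝 (0 : Cp X) := by
    have : {f : Cp X | ∀ x ∈ F, |(f : X → ℝ) x| < 1 / ((n : ℝ) + 1)} =
        ⋂ x ∈ F, {f : Cp X | |(f : X → ℝ) x| < 1 / ((n : ℝ) + 1)} := by
      ext f; simp
    rw [this, biInter_mem hF]
    intro x _
    have hcont : Continuous (fun f : Cp X => |(f : X → ℝ) x|) :=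
      ((continuous_apply x).comp continuous_subtype_val).abs
    apply (isOpen_lt hcont continuous_const).mem_nhds
    have : |((0 : Cp X) : X → ℝ) x| = 0 := by simp
    simp only [mem_ofPred_eq]
    rw [this]
    positivity
  filter_upwards [hnb] with f hf using hn f hf

/-- **Second half of the criterion.** -/
theorem isSGroup_of_finitelyCarried (hX : FinitelyCarried X) : IsSGroup.{u, v} (Cp X) := by
  refine ⟨inferInstance, ?_⟩
  intro G _ _ _ _ φ hφ
  apply continuous_of_continuousAt_zero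
  intro U hU
  rw [map_zero] at hU
  obtain ⟨N, hN, hN2⟩ := exists_gauge φ hφ U hU
  have h1 := gauge_nhds hX hN
  change φ ⁻¹' U ∈ 𝓝 (0 : Cp X)
  exact Filter.mem_of_superset h1 (fun f hf => hN2 f hf)

/-- **The criterion.** -/
theorem isSGroup_iff : IsSGroup.{u, u} (Cp X) ↔ FinitelyCarried X :=
  ⟨finitelyCarried_of_isSGroup, isSGroup_of_finitelyCarried⟩

end Pool.Agent.Lib.MP_174f4a_gt.SC
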