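import Pool.Agent.Lib.MP_174f4a_gt.Main

/-!
Definitions for the criterion: for which topological spaces `X` is `C_p(X)` an s-group.
-/

set_option autoImplicit false

namespace Pool.Agent.Lib.MP_174f4a_gt.SC

open Topology Filter Set MeasureTheory

universe u v

/-- `U` is a cozero set: the set of the points where some continuous real function is not zero. -/
def IsCoz {X : Type u} [TopologicalSpace X] (U : Set X) : Prop :=
  ∃ f : X → ℝ, Continuous f ∧ U = {x | f x ≠ 0}

/-- The Baire sets: the σ-algebra generated by the cozero sets. -/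
@[reducible] def baireSigma (X : Type u) [TopologicalSpace X] : MeasurableSpace X :=
  MeasurableSpace.generateFrom {U | IsCoz U}

/-- `ν` is a continuous (Maharam) submeasure on the Baire sets of `X`. -/
structure ContSubmeasure {X : Type u} [TopologicalSpace X] (ν : Set X → ℝ) : Prop where
  empty : ν ∅ = 0
  mono : ∀ A B, MeasurableSet[baireSigma X] A → MeasurableSet[baireSigma X] B → A ⊆ B → ν A ≤ ν B
  union : ∀ A B, MeasurableSet[baireSigma X] A → MeasurableSet[baireSigma X] B →
    ν (A ∪ B) ≤ ν A + ν B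
  cont : ∀ B : ℕ → Set X, (∀ n, MeasurableSet[baireSigma X] (B n)) → Antitone B →
    (⋂ n, B n) = ∅ → Tendsto (fun n => ν (B n)) atTop (𝓝 0)

/-- Every continuous submeasure on the Baire sets is carried by finite sets, up to `ε`. -/
def FinitelyCarried (X : Type u) [TopologicalSpace X] : Prop :=
  ∀ ν : Set X → ℝ, ContSubmeasure ν → ∀ ε : ℝ, 0 < ε →
    ∃ F : Set X, F.Finite ∧ ∀ U : Set X, IsCoz U → Disjoint U F → ν U ≤ ε

variable {X : Type u} [TopologicalSpace X]

lemma IsCoz.meas {U : Set X} (h : IsCoz U) : MeasurableSet[baireSigma X] U :=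
  MeasurableSpace.measurableSet_generateFrom h

lemma IsCoz.univ : IsCoz (Set.univ : Set X) :=
  ⟨fun _ => 1, continuous_const, by ext x; simp⟩

lemma IsCoz.empty : IsCoz (∅ : Set X) :=
  ⟨fun _ => 0, continuous_const, by ext x; simp⟩

lemma IsCoz.gt {f : X → ℝ} (hf : Continuous f) (a : ℝ) : IsCoz {x | a < f x} := by
  refine ⟨fun x => max (f x - a) 0, (hf.sub continuous_const).max continuous_const, ?_⟩
  ext x
  simp only [mem_ofPred_eq, ne_eq]
  constructor
  · intro h h0
    have : 0 < f x - a := by linarith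
    rw [max_eq_left this.le] at h0
    linarith
  · intro h
    by_contra hle
    apply h
    exact max_eq_right (by linarith)

lemma IsCoz.lt {f : X → ℝ} (hf : Continuous f) (a : ℝ) : IsCoz {x | f x < a} := by
  have h : IsCoz {x | -a < (fun y => -f y) x} := IsCoz.gt (f := fun y => -f y) hf.neg (-a)
  have e : {x | -a < (fun y => -f y) x} = {x | f x < a} := by
    ext x; simp
  rwa [e] at h

lemma IsCoz.inter {U V : Set X} (hU : IsCoz U) (hV : IsCoz V) : IsCoz (U ∩ V) := by
  obtain ⟨f, hf, rfl⟩ := hU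
  obtain ⟨g, hg, rfl⟩ := hV
  refine ⟨fun x => f x * g x, hf.mul hg, ?_⟩
  ext x
  simp

lemma IsCoz.union {U V : Set X} (hU : IsCoz U) (hV : IsCoz V) : IsCoz (U ∪ V) := by
  obtain ⟨f, hf, rfl⟩ := hU
  obtain ⟨g, hg, rfl⟩ := hV
  refine ⟨fun x => |f x| + |g x|, hf.abs.add hg.abs, ?_⟩
  ext x
  simp only [mem_union, mem_ofPred_eq, ne_eq]
  constructor
  · rintro (h | h) h0
    · have h1 := abs_pos.mpr h
      have h2 := abs_nonneg (g x)
      linarith
    · have h1 := abs_pos.mpr h
      have h2 := abs_nonneg (f x)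
      linarith
  · intro h
    by_contra hn
    push Not at hn
    apply h
    rw [hn.1, hn.2]
    simp

/-- intersection of finitely many (index `< n`) cozero sets -/
lemma IsCoz.iInter_lt (A : ℕ → Set X) (hA : ∀ k, IsCoz (A k)) :
    ∀ n, IsCoz (⋂ k, ⋂ (_ : k < n), A k) := by
  intro n
  induction n with
  | zero => simpa using IsCoz.univ
  | succ n ih =>
    have : (⋂ k, ⋂ (_ : k < n + 1), A k) = (⋂ k, ⋂ (_ : k < n), A k) ∩ A n := by
      ext x
      simp only [mem_iInter, mem_inter_iff]
      constructor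
      · intro h
        exact ⟨fun k hk => h k (by omega), h n (by omega)⟩
      · rintro ⟨h1, h2⟩ k hk
        rcases Nat.lt_succ_iff_lt_or_eq.mp hk with h | h
        · exact h1 k h
        · rw [h]; exact h2
    rw [this]
    exact ih.inter (hA n)

/-- union of finitely many (index `< n`) cozero sets -/
lemma IsCoz.iUnion_lt (A : ℕ → Set X) (hA : ∀ k, IsCoz (A k)) :
    ∀ n, IsCoz (⋃ k, ⋃ (_ : k < n), A k) := by
  intro n
  induction n with
  | zero => simpa using IsCoz.empty
  | succ n ih =>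
    have : (⋃ k, ⋃ (_ : k < n + 1), A k) = (⋃ k, ⋃ (_ : k < n), A k) ∪ A n := by
      ext x
      simp only [mem_iUnion, mem_union, exists_prop]
      constructor
      · rintro ⟨k, hk, hx⟩
        rcases Nat.lt_succ_iff_lt_or_eq.mp hk with h | h
        · exact Or.inl ⟨k, h, hx⟩
        · right; rw [← h]; exact hx
      · rintro (⟨k, hk, hx⟩ | hx)
        · exact ⟨k, by omega, hx⟩
        · exact ⟨n, by omega, hx⟩
    rw [this]
    exact ih.union (hA n)

/-- A partition of unity of a sequence of cozero sets: `w k ≥ 0` with `A k = {w k ≠ 0}` and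
`w k ≤ 2 ^ (-k)`. -/
lemma exists_weights (A : ℕ → Set X) (hA : ∀ k, IsCoz (A k)) :
    ∃ w : ℕ → X → ℝ, (∀ k, Continuous (w k)) ∧ (∀ k x, 0 ≤ w k x) ∧
      (∀ k x, w k x ≤ (1 / 2 : ℝ) ^ k) ∧ (∀ k, A k = {x | w k x ≠ 0}) := by
  choose v hv hv' using hA
  refine ⟨fun k x => min |v k x| ((1 / 2 : ℝ) ^ k), fun k => (hv k).abs.min continuous_const,
    fun k x => le_min (abs_nonneg _) (by positivity), fun k x => min_le_right _ _, fun k => ?_⟩
  rw [hv' k]
  ext x
  simp only [mem_ofPred_eq, ne_eq]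
  constructor
  · intro h h0
    have h1 : 0 < min |v k x| ((1 / 2 : ℝ) ^ k) := lt_min (abs_pos.mpr h) (by positivity)
    linarith
  · intro h h0
    apply h
    rw [h0, abs_zero]
    exact min_eq_left (by positivity)

lemma continuous_tsum_weights {w : ℕ → X → ℝ} (h1 : ∀ k, Continuous (w k))
    (h2 : ∀ k x, 0 ≤ w k x) (h3 : ∀ k x, w k x ≤ (1 / 2 : ℝ) ^ k) :
    Continuous (fun x => ∑' k, w k x) := by
  apply continuous_tsum h1 (summable_geometric_of_lt_one (r := (1 / 2 : ℝ)) (by norm_num)
    (by norm_num))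
  intro k x
  rw [Real.norm_eq_abs, abs_of_nonneg (h2 k x)]
  exact h3 k x

omit [TopologicalSpace X] in
lemma summable_weights {w : ℕ → X → ℝ} (h2 : ∀ k x, 0 ≤ w k x)
    (h3 : ∀ k x, w k x ≤ (1 / 2 : ℝ) ^ k) (x : X) : Summable (fun k => w k x) :=
  Summable.of_nonneg_of_le (fun k => h2 k x) (fun k => h3 k x)
    (summable_geometric_of_lt_one (by norm_num) (by norm_num))

lemma IsCoz.iUnion (A : ℕ → Set X) (hA : ∀ k, IsCoz (A k)) : IsCoz (⋃ k, A k) := by
  obtain ⟨w, h1, h2, h3, h4⟩ := exists_weights A hA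
  refine ⟨fun x => ∑' k, w k x, continuous_tsum_weights h1 h2 h3, ?_⟩
  ext x
  simp only [mem_iUnion, mem_ofPred_eq, ne_eq]
  have hs := summable_weights h2 h3 x
  constructor
  · rintro ⟨k, hk⟩ h0
    rw [h4 k] at hk
    have := hs.le_tsum k (fun j _ => h2 j x)
    have h5 : 0 < w k x := lt_of_le_of_ne (h2 k x) (Ne.symm hk)
    linarith
  · intro h
    by_contra hn
    push Not at hn
    apply h
    have : ∀ k, w k x = 0 := by
      intro k
      by_contra hk
      apply hn k
      rw [h4 k]
      exact hk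
    simp [this]

end Pool.Agent.Lib.MP_174f4a_gt.SC
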