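import Pool.Agent.Lib.MP_174f4a_gt.SC.Defs

/-!
If `C_p(X)` is an s-group, then every continuous submeasure on the Baire sets of `X` is carried by
finite sets up to `ε`: the group of the continuous functions with the topology of convergence in
`ν` is the target of a sequentially continuous homomorphism.
-/

set_option autoImplicit false

namespace Pool.Agent.Lib.MP_174f4a_gt.SC

open Topology Filter Set MeasureTheory

universe u v

variable {X : Type u} [TopologicalSpace X]

/-- the continuous functions again, to be given another topology -/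
def LC (X : Type u) [TopologicalSpace X] : Type u := Cp X

instance : AddCommGroup (LC X) := inferInstanceAs (AddCommGroup (Cp X))

/-- the underlying function -/
def LC.fn (f : LC X) : X → ℝ := ((show Cp X from f : Cp X) : X → ℝ)

lemma LC.fn_zero (x : X) : (0 : LC X).fn x = 0 := rfl
lemma LC.fn_add (f g : LC X) (x : X) : (f + g).fn x = f.fn x + g.fn x := rfl
lemma LC.fn_neg (f : LC X) (x : X) : (-f).fn x = -f.fn x := rfl
lemma LC.fn_sub (f g : LC X) (x : X) : (f - g).fn x = f.fn x - g.fn x := rfl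
lemma LC.cont (f : LC X) : Continuous f.fn := (show Cp X from f).2

/-- the admissible bounds -/
def bds (ν : Set X → ℝ) (f : X → ℝ) : Set ℝ := {a | 0 ≤ a ∧ ν {x | a < |f x|} ≤ a}

/-- convergence in `ν` -/
noncomputable def lnorm (ν : Set X → ℝ) (f : X → ℝ) : ℝ := sInf (bds ν f)

variable {ν : Set X → ℝ}

set_option linter.unusedSectionVars false

lemma ContSubmeasure.nonneg (hν : ContSubmeasure ν) {A : Set X}
    (hA : MeasurableSet[baireSigma X] A) : 0 ≤ ν A := by
  rw [← hν.empty]
  exact hν.mono ∅ A (@MeasurableSet.empty _ (baireSigma X)) hA (empty_subset A)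

lemma meas_gt {f : X → ℝ} (hf : Continuous f) (a : ℝ) :
    MeasurableSet[baireSigma X] {x | a < |f x|} := (IsCoz.gt hf.abs a).meas

lemma bds_bdd (ν : Set X → ℝ) (f : X → ℝ) : BddBelow (bds ν f) := ⟨0, fun _ ha => ha.1⟩

lemma bds_nonempty (hν : ContSubmeasure ν) {f : X → ℝ} (hf : Continuous f) :
    (bds ν f).Nonempty := by
  refine ⟨max (ν univ) 0, le_max_right _ _, ?_⟩
  exact (hν.mono _ _ (meas_gt hf _) (@MeasurableSet.univ _ (baireSigma X))
    (subset_univ _)).trans (le_max_left _ _)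

lemma lnorm_nonneg (ν : Set X → ℝ) (f : X → ℝ) : 0 ≤ lnorm ν f :=
  Real.sInf_nonneg (fun _ ha => ha.1)

lemma lnorm_le {f : X → ℝ} {a : ℝ} (ha : 0 ≤ a) (h : ν {x | a < |f x|} ≤ a) : lnorm ν f ≤ a :=
  csInf_le (bds_bdd ν f) ⟨ha, h⟩

lemma lt_of_lnorm_lt (hν : ContSubmeasure ν) {f : X → ℝ} (hf : Continuous f) {a : ℝ}
    (h : lnorm ν f < a) : ν {x | a < |f x|} ≤ a := by
  obtain ⟨b, hb, hba⟩ := exists_lt_of_csInf_lt (bds_nonempty hν hf) h
  refine (hν.mono _ _ (meas_gt hf _) (meas_gt hf _) ?_).trans (hb.2.trans hba.le)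
  intro x hx
  exact lt_trans hba hx

lemma lnorm_add (hν : ContSubmeasure ν) {f g : X → ℝ} (hf : Continuous f) (hg : Continuous g) :
    lnorm ν (fun x => f x + g x) ≤ lnorm ν f + lnorm ν g := by
  apply le_of_forall_pos_le_add
  intro ε hε
  have h1 := lt_of_lnorm_lt hν hf (a := lnorm ν f + ε / 2) (by linarith)
  have h2 := lt_of_lnorm_lt hν hg (a := lnorm ν g + ε / 2) (by linarith)
  have h3 := lnorm_nonneg ν f
  have h4 := lnorm_nonneg ν g
  have h5 : ν {x | (lnorm ν f + ε / 2) + (lnorm ν g + ε / 2) < |f x + g x|} ≤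
      (lnorm ν f + ε / 2) + (lnorm ν g + ε / 2) := by
    have m1 := meas_gt hf (lnorm ν f + ε / 2)
    have m2 := meas_gt hg (lnorm ν g + ε / 2)
    have m3 : MeasurableSet[baireSigma X]
        ({x | lnorm ν f + ε / 2 < |f x|} ∪ {x | lnorm ν g + ε / 2 < |g x|}) :=
      @MeasurableSet.union _ (baireSigma X) _ _ m1 m2
    refine (hν.mono _ _ (meas_gt (f := fun x => f x + g x) (hf.add hg) _) m3 ?_).trans
      ((hν.union _ _ m1 m2).trans (add_le_add h1 h2))
    intro x hx
    by_contra hn
    simp only [mem_union, mem_ofPred_eq, not_or, not_lt] at hn hx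
    have := abs_add_le (f x) (g x)
    linarith [hn.1, hn.2]
  have := lnorm_le (ν := ν) (f := fun x => f x + g x) (by linarith) h5
  linarith

/-- the seminorm -/
noncomputable def lsn (hν : ContSubmeasure ν) : AddGroupSeminorm (LC X) where
  toFun f := lnorm ν f.fn
  map_zero' := by
    apply le_antisymm _ (lnorm_nonneg _ _)
    apply lnorm_le le_rfl
    have : {x | (0 : ℝ) < |(0 : LC X).fn x|} = ∅ := by
      ext x
      simp [LC.fn_zero]
    rw [this, hν.empty]
  add_le' f g := lnorm_add hν f.cont g.cont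
  neg' f := by
    unfold lnorm bds
    simp only [LC.fn_neg, abs_neg]

lemma tendsto_lnorm (hν : ContSubmeasure ν) (u : ℕ → X → ℝ) (hu : ∀ n, Continuous (u n))
    (h : ∀ x, Tendsto (fun n => u n x) atTop (𝓝 0)) :
    Tendsto (fun n => lnorm ν (u n)) atTop (𝓝 0) := by
  rw [Metric.tendsto_atTop]
  intro ε hε
  let B : ℕ → Set X := fun n => ⋃ m, ({x | ε / 2 < |u (n + m) x|})
  have hB : ∀ n, MeasurableSet[baireSigma X] (B n) := fun n =>
    @MeasurableSet.iUnion _ _ (baireSigma X) _ _ (fun m => meas_gt (hu _) _)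
  have hanti : Antitone B := by
    apply antitone_nat_of_succ_le
    intro n x hx
    simp only [B, mem_iUnion] at hx ⊢
    obtain ⟨m, hm⟩ := hx
    refine ⟨m + 1, ?_⟩
    have e : n + (m + 1) = n + 1 + m := by omega
    rw [e]
    exact hm
  have hint : (⋂ n, B n) = ∅ := by
    rw [eq_empty_iff_forall_notMem]
    intro x hx
    have h1 := (Metric.tendsto_atTop.mp (h x)) (ε / 2) (by linarith)
    obtain ⟨N, hN⟩ := h1
    have h2 := mem_iInter.mp hx N
    simp only [B, mem_iUnion] at h2
    obtain ⟨m, hm⟩ := h2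
    have h3 := hN (N + m) (by omega)
    rw [Real.dist_eq, sub_zero] at h3
    exact absurd hm (not_lt.mpr h3.le)
  obtain ⟨N, hN⟩ := Metric.tendsto_atTop.mp (hν.cont B hB hanti hint) (ε / 2) (by linarith)
  refine ⟨N, fun n hn => ?_⟩
  rw [Real.dist_eq, sub_zero, abs_of_nonneg (lnorm_nonneg _ _)]
  have h1 := hN n hn
  rw [Real.dist_eq, sub_zero, abs_of_nonneg (hν.nonneg (hB n))] at h1
  have h2 : ν {x | ε / 2 < |u n x|} ≤ ε / 2 := by
    refine (hν.mono _ _ (meas_gt (hu n) _) (hB n) ?_).trans h1.le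
    intro x hx
    simp only [B, mem_iUnion]
    exact ⟨0, hx⟩
  have h3 := lnorm_le (ν := ν) (f := u n) (by linarith) h2
  linarith

/-- a cozero set of large submeasure carries a continuous function of large norm -/
lemma exists_large (hν : ContSubmeasure ν) {U : Set X} (hU : IsCoz U) {ε : ℝ} (hε : 0 < ε)
    (h : ε < ν U) : ∃ f : X → ℝ, Continuous f ∧ (∀ x, x ∉ U → f x = 0) ∧ ε ≤ lnorm ν f := by
  obtain ⟨g, hg, rfl⟩ := hU
  let B : ℕ → Set X := fun n => {x | g x ≠ 0} ∩ {x | 1 / ((n : ℝ) + 1) < |g x|}ᶜ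
  have hcoz : IsCoz {x | g x ≠ 0} := ⟨g, hg, rfl⟩
  have hB : ∀ n, MeasurableSet[baireSigma X] (B n) := fun n =>
    @MeasurableSet.inter _ (baireSigma X) _ _ hcoz.meas
      (@MeasurableSet.compl _ _ (baireSigma X) (meas_gt hg _))
  have hanti : Antitone B := by
    intro n m hnm x hx
    refine ⟨hx.1, ?_⟩
    have h1 := hx.2
    simp only [mem_compl_iff, mem_ofPred_eq, not_lt] at h1 ⊢
    refine h1.trans ?_
    apply one_div_le_one_div_of_le (by positivity)
    have : (n : ℝ) ≤ m := by exact_mod_cast hnm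
    linarith
  have hint : (⋂ n, B n) = ∅ := by
    rw [eq_empty_iff_forall_notMem]
    intro x hx
    have h0 : g x ≠ 0 := (mem_iInter.mp hx 0).1
    obtain ⟨n, hn⟩ := exists_nat_one_div_lt (abs_pos.mpr h0)
    exact (mem_iInter.mp hx n).2 hn
  obtain ⟨N, hN⟩ := Metric.tendsto_atTop.mp (hν.cont B hB hanti hint) (ν {x | g x ≠ 0} - ε)
    (by linarith)
  have h1 := hN N le_rfl
  rw [Real.dist_eq, sub_zero, abs_of_nonneg (hν.nonneg (hB N))] at h1
  have h2 : ε < ν {x | 1 / ((N : ℝ) + 1) < |g x|} := by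
    have h3 := hν.union _ _ (meas_gt hg (1 / ((N : ℝ) + 1))) (hB N)
    have h4 : {x | g x ≠ 0} ⊆ {x | 1 / ((N : ℝ) + 1) < |g x|} ∪ B N := by
      intro x hx
      by_cases hx' : 1 / ((N : ℝ) + 1) < |g x|
      · exact Or.inl hx'
      · exact Or.inr ⟨hx, hx'⟩
    have h5 := hν.mono _ _ hcoz.meas (@MeasurableSet.union _ (baireSigma X) _ _
      (meas_gt hg (1 / ((N : ℝ) + 1))) (hB N)) h4
    linarith
  have hpos : (0 : ℝ) < (N : ℝ) + 1 := by positivity
  refine ⟨fun x => ε * ((N : ℝ) + 1) * g x, continuous_const.mul hg, ?_, ?_⟩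
  · intro x hx
    have : g x = 0 := by
      by_contra h
      exact hx h
    simp [this]
  · by_contra hlt
    push Not at hlt
    have h3 := lt_of_lnorm_lt hν (f := fun x => ε * ((N : ℝ) + 1) * g x)
      (continuous_const.mul hg) hlt
    have h4 : {x | ε < |ε * ((N : ℝ) + 1) * g x|} = {x | 1 / ((N : ℝ) + 1) < |g x|} := by
      ext x
      simp only [mem_ofPred_eq]
      rw [abs_mul, abs_of_pos (by positivity : 0 < ε * ((N : ℝ) + 1)), div_lt_iff₀ hpos]
      constructor
      · intro h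
        have h5 : ε * 1 < ε * (|g x| * ((N : ℝ) + 1)) := by linarith
        exact lt_of_mul_lt_mul_left h5 hε.le
      · intro h
        have h5 := mul_lt_mul_of_pos_left h hε
        linarith
    rw [h4] at h3
    linarith

/-- **First half of the criterion.** -/
theorem finitelyCarried_of_isSGroup (h : IsSGroup.{u, u} (Cp X)) : FinitelyCarried X := by
  classical
  intro ν hν ε hε
  by_contra hcon
  push Not at hcon
  have key : ∀ F : Finset X, ∃ f : Cp X, (∀ x ∈ F, (f : X → ℝ) x = 0) ∧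
      ε ≤ lnorm ν (f : X → ℝ) := by
    intro F
    obtain ⟨U, hU, hd, hlt⟩ := hcon (F : Set X) F.finite_toSet
    obtain ⟨f, hf, hf0, hf1⟩ := exists_large hν hU hε hlt
    refine ⟨⟨f, hf⟩, fun x hx => hf0 x ?_, hf1⟩
    intro hxU
    exact Set.disjoint_left.mp hd hxU (by exact_mod_cast hx)
  choose f hf0 hf1 using key
  let sng : SeminormedAddCommGroup (LC X) := (lsn hν).toSeminormedAddCommGroup
  let ι : Cp X →+ LC X := AddMonoidHom.id (Cp X)
  let φ : Cp X →+ SeparationQuotient (LC X) := SeparationQuotient.mkAddMonoidHom.comp ι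
  have hnorm : ∀ g : LC X, ‖g‖ = lnorm ν g.fn := fun g => rfl
  have hι : SeqContinuous ι := by
    intro u g hu
    rw [tendsto_iff_norm_sub_tendsto_zero]
    rw [tendsto_Cp_iff] at hu
    have h1 := tendsto_lnorm hν (fun n x => (u n : X → ℝ) x - (g : X → ℝ) x)
      (fun n => (u n).2.sub g.2) (fun x => by
        have := (hu x).sub_const ((g : X → ℝ) x)
        rwa [sub_self] at this)
    exact h1
  have hφ : SeqContinuous φ := by
    intro u g hu
    have h1 : Tendsto (fun n => ι (u n)) atTop (𝓝 (ι g)) := hι hu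
    exact (SeparationQuotient.continuous_mk.tendsto (ι g)).comp h1
  have hc : Continuous φ := h.2 (SeparationQuotient (LC X)) φ hφ
  have hιc : Continuous ι := by
    rw [SeparationQuotient.isInducing_mk.continuous_iff]
    exact hc
  have hlim : Tendsto f (atTop : Filter (Finset X)) (𝓝 0) := by
    rw [tendsto_Cp_iff]
    intro x
    have : ∀ᶠ F in (atTop : Filter (Finset X)), (f F : X → ℝ) x = 0 := by
      filter_upwards [eventually_ge_atTop ({x} : Finset X)] with F hF
      exact hf0 F x (hF (Finset.mem_singleton_self x))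
    exact tendsto_const_nhds.congr' (by filter_upwards [this] with F hF; rw [hF]; rfl)
  have h2 := (hιc.tendsto 0).comp hlim
  rw [map_zero] at h2
  have h3 : Tendsto (fun F => ‖ι (f F)‖) atTop (𝓝 0) := by
    have := h2.norm
    rw [norm_zero] at this
    exact this
  obtain ⟨F, hF⟩ := (h3.eventually (gt_mem_nhds hε)).exists
  exact absurd (hf1 F) (not_le.mpr hF)

end Pool.Agent.Lib.MP_174f4a_gt.SC
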