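import Pool.Agent.Lib.MP_174f4a_gt.SC.Spec

/-!
Module KCA: if `C(X, ℝ)` with the compact-open topology is an s-group, then every `KSubmeasure` of `X` is
carried by compact sets, up to `ε`.  A copy of `SC/Imp.lean` for the compact-open topology.
-/

set_option autoImplicit false
set_option linter.unusedSectionVars false

namespace Pool.Agent.Lib.MP_174f4a_gt.SC

open Topology Filter Set MeasureTheory

universe u v

namespace KCAM

variable {X : Type u} [TopologicalSpace X]

/-- the continuous functions again, to be given another topology -/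
def LK (X : Type u) [TopologicalSpace X] : Type u := C(X, ℝ)

instance : AddCommGroup (LK X) := inferInstanceAs (AddCommGroup C(X, ℝ))

/-- the underlying function -/
def LK.fn (f : LK X) : X → ℝ := ((show C(X, ℝ) from f : C(X, ℝ)) : X → ℝ)

lemma LK.fn_zero (x : X) : (0 : LK X).fn x = 0 := rfl
lemma LK.fn_neg (f : LK X) (x : X) : (-f).fn x = -f.fn x := rfl
lemma LK.cont (f : LK X) : Continuous f.fn := (show C(X, ℝ) from f).2

variable {ν : Set X → ℝ}

lemma nonneg (hν : KSubmeasure ν) {A : Set X} (hA : IsCoz A) : 0 ≤ ν A := by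
  rw [← hν.empty]
  have h0 : IsCoz (∅ : Set X) := ⟨fun _ => 0, continuous_const, by ext x; simp⟩
  exact hν.mono ∅ A h0 hA (empty_subset A)

lemma coz_gt {f : X → ℝ} (hf : Continuous f) (a : ℝ) : IsCoz {x | a < |f x|} :=
  IsCoz.gt hf.abs a

lemma coz_univ : IsCoz (univ : Set X) := ⟨fun _ => 1, continuous_const, by ext x; simp⟩

lemma kbds_nonempty (hν : KSubmeasure ν) {f : X → ℝ} (hf : Continuous f) :
    (bds ν f).Nonempty := by
  refine ⟨max (ν univ) 0, le_max_right _ _, ?_⟩
  exact (hν.mono _ _ (coz_gt hf _) coz_univ (subset_univ _)).trans (le_max_left _ _)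

lemma lt_of_klnorm_lt (hν : KSubmeasure ν) {f : X → ℝ} (hf : Continuous f) {a : ℝ}
    (h : lnorm ν f < a) : ν {x | a < |f x|} ≤ a := by
  obtain ⟨b, hb, hba⟩ := exists_lt_of_csInf_lt (kbds_nonempty hν hf) h
  refine (hν.mono _ _ (coz_gt hf _) (coz_gt hf _) ?_).trans (hb.2.trans hba.le)
  intro x hx
  exact lt_trans hba hx

lemma klnorm_add (hν : KSubmeasure ν) {f g : X → ℝ} (hf : Continuous f) (hg : Continuous g) :
    lnorm ν (fun x => f x + g x) ≤ lnorm ν f + lnorm ν g := by
  apply le_of_forall_pos_le_add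
  intro ε hε
  have h1 := lt_of_klnorm_lt hν hf (a := lnorm ν f + ε / 2) (by linarith)
  have h2 := lt_of_klnorm_lt hν hg (a := lnorm ν g + ε / 2) (by linarith)
  have h3 := lnorm_nonneg ν f
  have h4 := lnorm_nonneg ν g
  have h5 : ν {x | (lnorm ν f + ε / 2) + (lnorm ν g + ε / 2) < |f x + g x|} ≤
      (lnorm ν f + ε / 2) + (lnorm ν g + ε / 2) := by
    have m1 := coz_gt hf (lnorm ν f + ε / 2)
    have m2 := coz_gt hg (lnorm ν g + ε / 2)
    have m3 : IsCoz ({x | lnorm ν f + ε / 2 < |f x|} ∪ {x | lnorm ν g + ε / 2 < |g x|}) :=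
      m1.union m2
    refine (hν.mono _ _ (coz_gt (f := fun x => f x + g x) (hf.add hg) _) m3 ?_).trans
      ((hν.union _ _ m1 m2).trans (add_le_add h1 h2))
    intro x hx
    by_contra hn
    simp only [mem_union, mem_ofPred_eq, not_or, not_lt] at hn hx
    have := abs_add_le (f x) (g x)
    linarith [hn.1, hn.2]
  have := lnorm_le (ν := ν) (f := fun x => f x + g x) (by linarith) h5
  linarith

/-- the seminorm -/
noncomputable def ksn (hν : KSubmeasure ν) : AddGroupSeminorm (LK X) where
  toFun f := lnorm ν f.fn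
  map_zero' := by
    apply le_antisymm _ (lnorm_nonneg _ _)
    apply lnorm_le le_rfl
    have : {x | (0 : ℝ) < |(0 : LK X).fn x|} = ∅ := by
      ext x
      simp [LK.fn_zero]
    rw [this, hν.empty]
  add_le' f g := klnorm_add hν f.cont g.cont
  neg' f := by
    unfold lnorm bds
    simp only [LK.fn_neg, abs_neg]

lemma tendsto_klnorm (hν : KSubmeasure ν) (u : ℕ → C(X, ℝ)) (g : C(X, ℝ))
    (h : Tendsto u atTop (𝓝 g)) :
    Tendsto (fun n => lnorm ν (fun x => u n x - g x)) atTop (𝓝 0) := by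
  rw [Metric.tendsto_atTop]
  intro ε hε
  rw [ContinuousMap.tendsto_iff_forall_isCompact_tendstoUniformlyOn] at h
  have hc : ∀ n, Continuous (fun x => u n x - g x) := fun n =>
    (u n).continuous.sub g.continuous
  have h1 := hν.cont (fun n => {x | ε / 2 < |u n x - g x|}) (fun n => coz_gt (hc n) _) (by
    intro K hK
    have h2 := Metric.tendstoUniformlyOn_iff.mp (h K hK) (ε / 2) (by linarith)
    filter_upwards [h2] with n hn
    rw [Set.disjoint_left]
    intro x hx hxK
    have h3 := hn x hxK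
    rw [dist_comm, Real.dist_eq] at h3
    exact absurd hx (not_lt.mpr h3.le))
  obtain ⟨N, hN⟩ := Metric.tendsto_atTop.mp h1 (ε / 2) (by linarith)
  refine ⟨N, fun n hn => ?_⟩
  rw [Real.dist_eq, sub_zero, abs_of_nonneg (lnorm_nonneg _ _)]
  have h4 := hN n hn
  rw [Real.dist_eq, sub_zero, abs_of_nonneg (nonneg hν (coz_gt (hc n) _))] at h4
  have h3 := lnorm_le (ν := ν) (f := fun x => u n x - g x) (by linarith) h4.le
  linarith

end KCAM

theorem specKCA : SpecKCA.{u} := by
  intro X _ h ν hν ε hε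
  let sng : SeminormedAddCommGroup (KCAM.LK X) := (KCAM.ksn hν).toSeminormedAddCommGroup
  let ι : C(X, ℝ) →+ KCAM.LK X := AddMonoidHom.id C(X, ℝ)
  let φ : C(X, ℝ) →+ SeparationQuotient (KCAM.LK X) := SeparationQuotient.mkAddMonoidHom.comp ι
  have hι : SeqContinuous ι := by
    intro u g hu
    rw [tendsto_iff_norm_sub_tendsto_zero]
    exact KCAM.tendsto_klnorm hν u g hu
  have hφ : SeqContinuous φ := by
    intro u g hu
    have h1 : Tendsto (fun n => ι (u n)) atTop (𝓝 (ι g)) := hι hu
    exact (SeparationQuotient.continuous_mk.tendsto (ι g)).comp h1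
  have hc : Continuous φ := h.2 (SeparationQuotient (KCAM.LK X)) φ hφ
  have hιc : Continuous ι := by
    rw [SeparationQuotient.isInducing_mk.continuous_iff]
    exact hc
  have hnb : {f : C(X, ℝ) | lnorm ν f < ε} ∈ 𝓝 (0 : C(X, ℝ)) := by
    have h1 : Tendsto (fun f => ‖ι f‖) (𝓝 0) (𝓝 0) := by
      have := (hιc.tendsto 0).norm
      rwa [map_zero, norm_zero] at this
    exact h1.eventually (gt_mem_nhds hε)
  have hb := (Metric.nhds_basis_ball (x := (0 : ℝ))).nhds_continuousMapConst (X := X)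
  have hz : (ContinuousMap.const X (0 : ℝ)) = 0 := rfl
  rw [hz] at hb
  obtain ⟨⟨K, δ⟩, ⟨hK, hδ⟩, hsub⟩ := hb.mem_iff.mp hnb
  refine ⟨K, hK, fun g hg hgK => ?_⟩
  let f : C(X, ℝ) := ⟨fun x => ε * g x, continuous_const.mul hg⟩
  have hf : lnorm ν f < ε := by
    apply hsub
    intro x hx
    change ε * g x ∈ Metric.ball (0 : ℝ) δ
    rw [hgK x hx, mul_zero]
    exact Metric.mem_ball_self hδ
  have h3 := KCAM.lt_of_klnorm_lt hν f.continuous hf
  have h4 : {x | ε < |f x|} = {x | 1 < |g x|} := by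
    ext x
    simp only [mem_ofPred_eq]
    change ε < |ε * g x| ↔ 1 < |g x|
    rw [abs_mul, abs_of_pos hε]
    constructor
    · intro h5
      by_contra h6
      push Not at h6
      have := mul_le_mul_of_nonneg_left h6 hε.le
      linarith
    · intro h5
      have := mul_lt_mul_of_pos_left h5 hε
      linarith
  rwa [h4] at h3

end Pool.Agent.Lib.MP_174f4a_gt.SC
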