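import Pool.Agent.Lib.MP_174f4a_gt.SC.Spec

/-!
Module KCB: if every `KSubmeasure` of `X` is carried by compact sets, up to `ε`, then `C(X, ℝ)` with the
compact-open topology is an s-group.
-/

set_option autoImplicit false
set_option linter.unusedSectionVars false

namespace Pool.Agent.Lib.MP_174f4a_gt.SC

open Topology Filter Set MeasureTheory

universe u v

namespace KCBM

variable {X : Type u} [TopologicalSpace X]

/-- A subadditive, sequentially continuous gauge on `C(X, ℝ)` with values in `[0, 1]`. -/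
structure KGauge (N : C(X, ℝ) → ℝ) : Prop where
  nonneg : ∀ f, 0 ≤ N f
  le_one : ∀ f, N f ≤ 1
  add : ∀ f g, N (f + g) ≤ N f + N g
  seq : ∀ w : ℕ → C(X, ℝ), Tendsto w atTop (𝓝 0) → Tendsto (fun n => N (w n)) atTop (𝓝 0)

/-- the sets used for the norm -/
def lev {G : Type v} [AddGroup G] (φ : C(X, ℝ) →+ G) (V : ℕ → Set G) : ℕ → Set C(X, ℝ)
  | 0 => univ
  | n + 1 => {f | φ f ∈ V (2 * n)}

theorem exists_gauge {G : Type v} [AddGroup G] [TopologicalSpace G] [IsTopologicalAddGroup G]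
    (φ : C(X, ℝ) →+ G) (hφ : SeqContinuous φ) (U : Set G) (hU : U ∈ 𝓝 (0 : G)) :
    ∃ N : C(X, ℝ) → ℝ, KGauge N ∧ ∀ f, N f < 1 / 2 → φ f ∈ U := by
  obtain ⟨V, hV0, hV1, _, hV3⟩ := exists_nhds_seq U hU
  have hz : ∀ n, (0 : G) ∈ V n := fun n => mem_of_mem_nhds (hV1 n)
  have hVs : ∀ n, V (n + 1) ⊆ V n := by
    intro n a ha
    have := hV3 n a 0 ha (hz _)
    simpa using this
  have hu : lev φ V 0 = univ := rfl
  have h0 : ∀ n, (0 : C(X, ℝ)) ∈ lev φ V n := by
    intro n
    cases n with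
    | zero => exact mem_univ _
    | succ n =>
      change φ 0 ∈ V (2 * n)
      rw [map_zero]; exact hz _
  have hanti : Antitone (lev φ V) := by
    apply antitone_nat_of_succ_le
    intro n f hf
    cases n with
    | zero => exact mem_univ _
    | succ n =>
      change φ f ∈ V (2 * n)
      have h1 : φ f ∈ V (2 * n + 1 + 1) := hf
      exact hVs _ (hVs _ h1)
  have h3 : ∀ n a b c, a ∈ lev φ V (n + 1) → b ∈ lev φ V (n + 1) → c ∈ lev φ V (n + 1) →
      a + (b + c) ∈ lev φ V n := by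
    intro n a b c ha hb hc
    cases n with
    | zero => exact mem_univ _
    | succ n =>
      change φ (a + (b + c)) ∈ V (2 * n)
      have h1 : φ a ∈ V (2 * n + 1 + 1) := ha
      have h2 : φ b ∈ V (2 * n + 1 + 1) := hb
      have h3 : φ c ∈ V (2 * n + 1 + 1) := hc
      rw [map_add, map_add]
      exact hV3 _ _ _ (hVs _ h1) (hV3 _ _ _ h2 h3)
  refine ⟨bk (lev φ V), ⟨fun f => bk_nonneg f, fun f => ?_, fun f g => bk_add hu f g, ?_⟩, ?_⟩
  · have : f ∈ lev φ V 0 := mem_univ _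
    simpa using bk_le this
  · intro w hw
    rw [Metric.tendsto_atTop]
    intro ε hε
    obtain ⟨n, hn⟩ := exists_pow_lt_of_lt_one hε (show (1 / 2 : ℝ) < 1 by norm_num)
    have h4 := hφ hw
    rw [map_zero] at h4
    have h5 : ∀ᶠ k in atTop, w k ∈ lev φ V (n + 1) := h4 (hV1 (2 * n))
    obtain ⟨K, hK⟩ := eventually_atTop.mp h5
    refine ⟨K, fun k hk => ?_⟩
    rw [Real.dist_eq, sub_zero, abs_of_nonneg (bk_nonneg _)]
    have h6 := bk_le (hK k hk)
    have h7 : (1 / 2 : ℝ) ^ (n + 1) ≤ (1 / 2 : ℝ) ^ n :=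
      pow_le_pow_of_le_one (by norm_num) (by norm_num) (Nat.le_succ n)
    linarith
  · intro f hf
    have h4 : bk (lev φ V) f < (1 / 2 : ℝ) ^ 1 := by rw [pow_one]; exact hf
    have h5 := mem_of_bk_lt hu h0 hanti h3 h4
    have h6 : φ f ∈ V (2 * 0) := h5
    rw [Nat.mul_zero] at h6
    exact hV0 h6

variable {N : C(X, ℝ) → ℝ}

/-- the values of the gauge on the functions which vanish outside of `A` -/
def vals (N : C(X, ℝ) → ℝ) (A : Set X) : Set ℝ :=
  {s | ∃ f : C(X, ℝ), (∀ x, x ∉ A → f x = 0) ∧ N f = s}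

/-- the submeasure -/
noncomputable def ksub (N : C(X, ℝ) → ℝ) (A : Set X) : ℝ := sSup (vals N A)

lemma KGauge.zero (hN : KGauge N) : N 0 = 0 := by
  have h := hN.seq (fun _ => 0) tendsto_const_nhds
  exact (tendsto_nhds_unique h tendsto_const_nhds).symm

lemma vals_bdd (hN : KGauge N) (A : Set X) : BddAbove (vals N A) := by
  refine ⟨1, ?_⟩
  rintro s ⟨f, _, rfl⟩
  exact hN.le_one f

lemma vals_nonempty (A : Set X) : (vals N A).Nonempty := ⟨N 0, 0, fun _ _ => rfl, rfl⟩

lemma le_ksub (hN : KGauge N) {A : Set X} {f : C(X, ℝ)} (h : ∀ x, x ∉ A → f x = 0) :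
    N f ≤ ksub N A := le_csSup (vals_bdd hN A) ⟨f, h, rfl⟩

lemma ksub_le {A : Set X} {s : ℝ} (h : ∀ f : C(X, ℝ), (∀ x, x ∉ A → f x = 0) → N f ≤ s) :
    ksub N A ≤ s := by
  apply csSup_le (vals_nonempty A)
  rintro _ ⟨f, hf, rfl⟩
  exact h f hf

lemma ksub_nonneg (hN : KGauge N) (A : Set X) : 0 ≤ ksub N A := by
  rw [← hN.zero]
  exact le_ksub hN (fun _ _ => rfl)

lemma ksub_mono (hN : KGauge N) {A B : Set X} (h : A ⊆ B) : ksub N A ≤ ksub N B :=
  ksub_le (fun _ hf => le_ksub hN (fun x hx => hf x (fun hxA => hx (h hxA))))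

lemma ksub_empty (hN : KGauge N) : ksub N (∅ : Set X) = 0 := by
  apply le_antisymm _ (ksub_nonneg hN _)
  apply ksub_le
  intro f hf
  have : f = 0 := by
    ext x
    exact hf x (notMem_empty x)
  rw [this, hN.zero]

/-- functions which vanish on every compact set eventually tend to zero -/
lemma tendsto_of_vanish {f : ℕ → C(X, ℝ)}
    (h : ∀ K : Set X, IsCompact K → ∀ᶠ n in atTop, ∀ x ∈ K, f n x = 0) :
    Tendsto f atTop (𝓝 0) := by
  rw [ContinuousMap.tendsto_iff_forall_isCompact_tendstoUniformlyOn]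
  intro K hK
  rw [Metric.tendstoUniformlyOn_iff]
  intro ε hε
  filter_upwards [h K hK] with n hn x hx
  rw [hn x hx]
  simpa using hε

/-- the submeasure tends to zero along compact-finite sequences -/
lemma ksub_tendsto (hN : KGauge N) (A : ℕ → Set X)
    (h : ∀ K : Set X, IsCompact K → ∀ᶠ n in atTop, Disjoint (A n) K) :
    Tendsto (fun n => ksub N (A n)) atTop (𝓝 0) := by
  have key : ∀ n : ℕ, ∃ f : C(X, ℝ), (∀ x, x ∉ A n → f x = 0) ∧
      ksub N (A n) ≤ N f + 1 / ((n : ℝ) + 1) := by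
    intro n
    have hpos : (0 : ℝ) < 1 / ((n : ℝ) + 1) := by positivity
    obtain ⟨s, ⟨f, hf, rfl⟩, hs⟩ := exists_lt_of_lt_csSup (vals_nonempty (N := N) (A n))
      (show ksub N (A n) - 1 / ((n : ℝ) + 1) < ksub N (A n) by linarith)
    exact ⟨f, hf, by linarith⟩
  choose f hf hs using key
  have hlim : Tendsto f atTop (𝓝 0) := by
    apply tendsto_of_vanish
    intro K hK
    filter_upwards [h K hK] with n hn x hx
    exact hf n x (fun hxA => Set.disjoint_left.mp hn hxA hx)
  have h1 := (hN.seq f hlim).add tendsto_one_div_add_atTop_nhds_zero_nat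
  rw [add_zero] at h1
  exact squeeze_zero (fun n => ksub_nonneg hN _) hs h1

/-- binary subadditivity on cozero sets -/
lemma ksub_union (hN : KGauge N) {U V : Set X} (hU : IsCoz U) (hV : IsCoz V) :
    ksub N (U ∪ V) ≤ ksub N U + ksub N V := by
  obtain ⟨p, hp, rfl⟩ := hU
  obtain ⟨r, hr, rfl⟩ := hV
  apply ksub_le
  intro f hf
  have hq : Continuous (fun x => |p x| + |r x|) := hp.abs.add hr.abs
  have hz : ∀ x, |p x| + |r x| = 0 → f x = 0 := by
    intro x hx
    have h1 := abs_nonneg (p x)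
    have h2 := abs_nonneg (r x)
    apply hf
    simp only [mem_union, mem_ofPred_eq, not_or, not_not]
    exact ⟨abs_eq_zero.mp (by linarith), abs_eq_zero.mp (by linarith)⟩
  have c1 := continuous_part f.continuous hp.abs hq (fun x => abs_nonneg _)
    (fun x => by have := abs_nonneg (r x); linarith) hz
  have c2 := continuous_part f.continuous hr.abs hq (fun x => abs_nonneg _)
    (fun x => by have := abs_nonneg (p x); linarith) hz
  let f1 : C(X, ℝ) := ⟨_, c1⟩
  let f2 : C(X, ℝ) := ⟨_, c2⟩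
  have e : f = f1 + f2 := by
    ext x
    change f x = f x * (|p x| / (|p x| + |r x|)) + f x * (|r x| / (|p x| + |r x|))
    by_cases hx : |p x| + |r x| = 0
    · rw [hz x hx]; ring
    · rw [← mul_add, ← add_div, div_self hx, mul_one]
  rw [e]
  refine (hN.add f1 f2).trans (add_le_add (le_ksub hN ?_) (le_ksub hN ?_))
  · intro x hx
    change f x * (|p x| / (|p x| + |r x|)) = 0
    have : p x = 0 := by
      by_contra h
      exact hx h
    rw [this]; simp
  · intro x hx
    change f x * (|r x| / (|p x| + |r x|)) = 0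
    have : r x = 0 := by
      by_contra h
      exact hx h
    rw [this]; simp

theorem kSubmeasure_ksub (hN : KGauge N) : KSubmeasure (ksub N) where
  empty := ksub_empty hN
  mono := fun _ _ _ _ h => ksub_mono hN h
  union := fun _ _ hU hV => ksub_union hN hU hV
  cont := fun U _ h => ksub_tendsto hN U h

/-- truncation -/
def trunc (f : C(X, ℝ)) (c : ℝ) : C(X, ℝ) :=
  ⟨fun x => max (-c) (min c (f x)), continuous_const.max (continuous_const.min f.continuous)⟩

lemma trunc_apply (f : C(X, ℝ)) (c : ℝ) (x : X) : trunc f c x = max (-c) (min c (f x)) := rfl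

lemma trunc_of_abs_le {f : C(X, ℝ)} {c : ℝ} {x : X} (h : |f x| ≤ c) : trunc f c x = f x := by
  have h2 := abs_le.mp h
  rw [trunc_apply, min_eq_right h2.2, max_eq_right h2.1]

lemma trunc_tendsto (f : ℕ → C(X, ℝ)) :
    Tendsto (fun n => trunc (f n) (1 / ((n : ℝ) + 1))) atTop (𝓝 0) := by
  rw [ContinuousMap.tendsto_iff_forall_isCompact_tendstoUniformlyOn]
  intro K _
  rw [Metric.tendstoUniformlyOn_iff]
  intro ε hε
  have h1 : ∀ᶠ n : ℕ in atTop, 1 / ((n : ℝ) + 1) < ε :=
    tendsto_one_div_add_atTop_nhds_zero_nat.eventually (gt_mem_nhds hε)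
  filter_upwards [h1] with n hn x _
  have hpos : (0 : ℝ) < 1 / ((n : ℝ) + 1) := by positivity
  rw [dist_comm, Real.dist_eq, ContinuousMap.zero_apply, sub_zero]
  refine lt_of_le_of_lt ?_ hn
  rw [trunc_apply, abs_le]
  exact ⟨le_max_left _ _, max_le (by linarith) (min_le_left _ _)⟩

/-- a gauge is small on a neighbourhood of zero -/
lemma gauge_nhds (hX : CompactlyCarried X) (hN : KGauge N) :
    {f | N f < 1 / 2} ∈ 𝓝 (0 : C(X, ℝ)) := by
  obtain ⟨K, hK, hK2⟩ := hX (ksub N) (kSubmeasure_ksub hN) (1 / 8) (by norm_num)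
  have hvan : ∀ f : C(X, ℝ), (∀ x ∈ K, f x = 0) → N f ≤ 1 / 8 := by
    intro f hf
    have hseq := hN.seq _ (trunc_tendsto (fun _ => f))
    have hle : ∀ n : ℕ, N f ≤ 1 / 8 + N (trunc f (1 / ((n : ℝ) + 1))) := by
      intro n
      have hpos : (0 : ℝ) < 1 / ((n : ℝ) + 1) := by positivity
      have hn1 : (0 : ℝ) < (n : ℝ) + 1 := by positivity
      have h1 : N (f - trunc f (1 / ((n : ℝ) + 1))) ≤
          ksub N {x | 1 < |(fun x => ((n : ℝ) + 1) * f x) x|} := by
        apply le_ksub hN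
        intro x hx
        simp only [mem_ofPred_eq, not_lt] at hx
        rw [abs_mul, abs_of_pos hn1] at hx
        have hx2 : |f x| ≤ 1 / ((n : ℝ) + 1) := by
          rw [le_div_iff₀ hn1]; linarith
        rw [ContinuousMap.sub_apply, trunc_of_abs_le hx2, sub_self]
      have h2 := hK2 (fun x => ((n : ℝ) + 1) * f x) (continuous_const.mul f.continuous)
        (fun x hx => by rw [hf x hx, mul_zero])
      have h3 : N f ≤ N (f - trunc f (1 / ((n : ℝ) + 1))) + N (trunc f (1 / ((n : ℝ) + 1))) := by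
        have := hN.add (f - trunc f (1 / ((n : ℝ) + 1))) (trunc f (1 / ((n : ℝ) + 1)))
        rwa [sub_add_cancel] at this
      linarith
    have h4 : Tendsto (fun n : ℕ => 1 / 8 + N (trunc f (1 / ((n : ℝ) + 1)))) atTop
        (𝓝 (1 / 8 + 0)) := hseq.const_add (1 / 8)
    rw [add_zero] at h4
    exact ge_of_tendsto' h4 hle
  have hδ : ∃ n : ℕ, ∀ f : C(X, ℝ), (∀ x ∈ K, |f x| < 1 / ((n : ℝ) + 1)) → N f < 1 / 2 := by
    by_contra hcon
    push Not at hcon
    choose f hf hf2 using hcon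
    obtain ⟨n, hn⟩ := ((hN.seq _ (trunc_tendsto f)).eventually (gt_mem_nhds
      (show (0 : ℝ) < 1 / 8 by norm_num))).exists
    have h1 : N (f n - trunc (f n) (1 / ((n : ℝ) + 1))) ≤ 1 / 8 := by
      apply hvan
      intro x hx
      rw [ContinuousMap.sub_apply, trunc_of_abs_le (hf n x hx).le, sub_self]
    have h3 : N (f n) ≤ N (f n - trunc (f n) (1 / ((n : ℝ) + 1))) +
        N (trunc (f n) (1 / ((n : ℝ) + 1))) := by
      have := hN.add (f n - trunc (f n) (1 / ((n : ℝ) + 1))) (trunc (f n) (1 / ((n : ℝ) + 1)))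
      rwa [sub_add_cancel] at this
    have h4 := hf2 n
    linarith
  obtain ⟨n, hn⟩ := hδ
  have hnb : {f : C(X, ℝ) | MapsTo f K {y : ℝ | |y| < 1 / ((n : ℝ) + 1)}} ∈ 𝓝 (0 : C(X, ℝ)) := by
    refine (ContinuousMap.isOpen_setOfPred_mapsTo hK
      (isOpen_lt continuous_abs continuous_const)).mem_nhds ?_
    intro x _
    have hpos : (0 : ℝ) < 1 / ((n : ℝ) + 1) := by positivity
    simpa using hpos
  filter_upwards [hnb] with f hf using hn f (fun x hx => hf hx)

end KCBM

theorem specKCB : SpecKCB.{u, v} := by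
  intro X _ hX
  refine ⟨inferInstance, ?_⟩
  intro G _ _ _ _ φ hφ
  apply continuous_of_continuousAt_zero
  intro U hU
  rw [map_zero] at hU
  obtain ⟨N, hN, hN2⟩ := KCBM.exists_gauge φ hφ U hU
  have h1 := KCBM.gauge_nhds hX hN
  change φ ⁻¹' U ∈ 𝓝 (0 : C(X, ℝ))
  exact Filter.mem_of_superset h1 (fun f hf => hN2 f hf)

end Pool.Agent.Lib.MP_174f4a_gt.SC
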