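import Pool.Agent.Lib.MP_174f4a_gt.SC.Defs
import Pool.Agent.Lib.MP_174f4a_gt.SGroup

/-!
The norm of Birkhoff and Kakutani for a sequentially continuous homomorphism defined on `C_p(X)`.
-/

set_option autoImplicit false

namespace Pool.Agent.Lib.MP_174f4a_gt.SC

open Topology Filter Set MeasureTheory

universe u v

section chain

variable {A : Type u} [AddCommMonoid A]

/-- the weight of a list -/
noncomputable def wt (L : List (ℕ × A)) : ℝ := (L.map (fun p => (1 / 2 : ℝ) ^ p.1)).sum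

/-- the sum of a list -/
def sm (L : List (ℕ × A)) : A := (L.map Prod.snd).sum

lemma wt_nil : wt ([] : List (ℕ × A)) = 0 := rfl
lemma sm_nil : sm ([] : List (ℕ × A)) = 0 := rfl
lemma wt_cons (p : ℕ × A) (L : List (ℕ × A)) : wt (p :: L) = (1 / 2 : ℝ) ^ p.1 + wt L := by
  simp [wt]
lemma sm_cons (p : ℕ × A) (L : List (ℕ × A)) : sm (p :: L) = p.2 + sm L := by
  simp [sm]
lemma wt_append (L M : List (ℕ × A)) : wt (L ++ M) = wt L + wt M := by
  simp [wt]
lemma sm_append (L M : List (ℕ × A)) : sm (L ++ M) = sm L + sm M := by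
  simp [sm]

lemma wt_nonneg (L : List (ℕ × A)) : 0 ≤ wt L := by
  induction L with
  | nil => rw [wt_nil]
  | cons p L ih =>
    rw [wt_cons]
    have : (0 : ℝ) < (1 / 2 : ℝ) ^ p.1 := by positivity
    linarith

lemma exists_split (L : List (ℕ × A)) : ∀ s : ℝ, 0 ≤ s → s < wt L →
    ∃ (L1 : List (ℕ × A)) (p : ℕ × A) (L2 : List (ℕ × A)), L = L1 ++ p :: L2 ∧ wt L1 ≤ s ∧
      s < wt L1 + (1 / 2 : ℝ) ^ p.1 := by
  induction L with
  | nil =>
    intro s hs h
    rw [wt_nil] at h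
    linarith
  | cons q L ih =>
    intro s hs h
    rw [wt_cons] at h
    by_cases hq : s < (1 / 2 : ℝ) ^ q.1
    · exact ⟨[], q, L, rfl, by rw [wt_nil]; exact hs, by rw [wt_nil, zero_add]; exact hq⟩
    · push Not at hq
      obtain ⟨L1, p, L2, h1, h2, h3⟩ := ih (s - (1 / 2 : ℝ) ^ q.1) (by linarith) (by linarith)
      refine ⟨q :: L1, p, L2, by rw [h1]; rfl, ?_, ?_⟩
      · rw [wt_cons]; linarith
      · rw [wt_cons]; linarith

variable {Q : ℕ → Set A}

lemma chain (h0 : ∀ n, (0 : A) ∈ Q n) (hanti : Antitone Q)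
    (h3 : ∀ n a b c, a ∈ Q (n + 1) → b ∈ Q (n + 1) → c ∈ Q (n + 1) → a + (b + c) ∈ Q n) :
    ∀ (m : ℕ) (L : List (ℕ × A)), L.length ≤ m → (∀ p ∈ L, p.2 ∈ Q p.1) →
      ∀ n, wt L < (1 / 2 : ℝ) ^ n → sm L ∈ Q n := by
  intro m
  induction m with
  | zero =>
    intro L hL _ n _
    have : L = [] := List.eq_nil_of_length_eq_zero (Nat.le_zero.mp hL)
    rw [this, sm_nil]
    exact h0 n
  | succ m ih =>
    intro L hL hQ n hn
    rcases eq_or_ne L [] with rfl | hne
    · rw [sm_nil]; exact h0 n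
    · have hpos : 0 < wt L := by
        obtain ⟨p, L', rfl⟩ := List.exists_cons_of_ne_nil hne
        rw [wt_cons]
        have h1 : (0 : ℝ) < (1 / 2 : ℝ) ^ p.1 := by positivity
        have h2 := wt_nonneg L'
        linarith
      obtain ⟨L1, p, L2, hL12, h1, h2⟩ := exists_split L (wt L / 2) (by linarith) (by linarith)
      have hw : wt L = wt L1 + ((1 / 2 : ℝ) ^ p.1 + wt L2) := by
        conv_lhs => rw [hL12]
        rw [wt_append, wt_cons]
      have hs : sm L = sm L1 + (p.2 + sm L2) := by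
        rw [hL12, sm_append, sm_cons]
      have hlen : L1.length + (L2.length + 1) = L.length := by
        rw [hL12, List.length_append, List.length_cons]
      have hhalf : (1 / 2 : ℝ) ^ (n + 1) = (1 / 2 : ℝ) ^ n / 2 := by
        rw [pow_succ]; ring
      have hn1 := wt_nonneg L1
      have hn2 := wt_nonneg L2
      rw [hs]
      apply h3
      · apply ih L1 (by omega) (fun q hq => hQ q (by rw [hL12]; simp [hq]))
        rw [hhalf]; linarith
      · have hp : p.2 ∈ Q p.1 := hQ p (by rw [hL12]; simp)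
        have hlt : (1 / 2 : ℝ) ^ p.1 < (1 / 2 : ℝ) ^ n := by linarith
        have hle : n + 1 ≤ p.1 := by
          by_contra hcon
          have : p.1 ≤ n := by omega
          have := pow_le_pow_of_le_one (by norm_num : (0 : ℝ) ≤ 1 / 2) (by norm_num) this
          linarith
        exact hanti hle hp
      · apply ih L2 (by omega) (fun q hq => hQ q (by rw [hL12]; simp [hq]))
        rw [hhalf]; linarith

/-- the norm -/
noncomputable def bk (Q : ℕ → Set A) (f : A) : ℝ :=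
  sInf {s | ∃ L : List (ℕ × A), (∀ p ∈ L, p.2 ∈ Q p.1) ∧ sm L = f ∧ wt L = s}

lemma bk_bdd (f : A) :
    BddBelow {s | ∃ L : List (ℕ × A), (∀ p ∈ L, p.2 ∈ Q p.1) ∧ sm L = f ∧ wt L = s} := by
  refine ⟨0, ?_⟩
  rintro s ⟨L, _, _, rfl⟩
  exact wt_nonneg L

lemma bk_nonneg (f : A) : 0 ≤ bk Q f := by
  apply Real.sInf_nonneg
  rintro s ⟨L, _, _, rfl⟩
  exact wt_nonneg L

lemma bk_le {f : A} {n : ℕ} (h : f ∈ Q n) : bk Q f ≤ (1 / 2 : ℝ) ^ n := by
  apply csInf_le (bk_bdd f)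
  refine ⟨[(n, f)], ?_, ?_, ?_⟩
  · intro p hp
    rw [List.mem_singleton] at hp
    rw [hp]; exact h
  · simp [sm]
  · simp [wt]

lemma bk_add (hu : Q 0 = univ) (f g : A) : bk Q (f + g) ≤ bk Q f + bk Q g := by
  have hne : ∀ f : A,
      {s | ∃ L : List (ℕ × A), (∀ p ∈ L, p.2 ∈ Q p.1) ∧ sm L = f ∧ wt L = s}.Nonempty := by
    intro f
    refine ⟨wt [(0, f)], [(0, f)], ?_, ?_, rfl⟩
    · intro p hp
      rw [List.mem_singleton] at hp
      rw [hp]
      simp [hu]
    · simp [sm]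
  apply le_of_forall_pos_le_add
  intro ε hε
  obtain ⟨a, ⟨L, hL1, hL2, rfl⟩, ha⟩ := exists_lt_of_csInf_lt (hne f)
    (show bk Q f < bk Q f + ε / 2 by linarith)
  obtain ⟨b, ⟨M, hM1, hM2, rfl⟩, hb⟩ := exists_lt_of_csInf_lt (hne g)
    (show bk Q g < bk Q g + ε / 2 by linarith)
  have : bk Q (f + g) ≤ wt (L ++ M) := by
    apply csInf_le (bk_bdd _)
    refine ⟨L ++ M, ?_, ?_, rfl⟩
    · intro p hp
      rcases List.mem_append.mp hp with h | h
      · exact hL1 p h
      · exact hM1 p h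
    · rw [sm_append, hL2, hM2]
  rw [wt_append] at this
  linarith

lemma mem_of_bk_lt (hu : Q 0 = univ) (h0 : ∀ n, (0 : A) ∈ Q n) (hanti : Antitone Q)
    (h3 : ∀ n a b c, a ∈ Q (n + 1) → b ∈ Q (n + 1) → c ∈ Q (n + 1) → a + (b + c) ∈ Q n)
    {f : A} {n : ℕ} (h : bk Q f < (1 / 2 : ℝ) ^ n) : f ∈ Q n := by
  have hne : {s | ∃ L : List (ℕ × A), (∀ p ∈ L, p.2 ∈ Q p.1) ∧ sm L = f ∧ wt L = s}.Nonempty := by
    refine ⟨wt [(0, f)], [(0, f)], ?_, ?_, rfl⟩
    · intro p hp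
      rw [List.mem_singleton] at hp
      rw [hp]
      simp [hu]
    · simp [sm]
  obtain ⟨a, ⟨L, hL1, hL2, rfl⟩, ha⟩ := exists_lt_of_csInf_lt hne h
  rw [← hL2]
  exact chain h0 hanti h3 L.length L le_rfl hL1 n ha

end chain

variable {X : Type u} [TopologicalSpace X]

/-- A subadditive, sequentially continuous gauge on `C_p(X)` with values in `[0, 1]`. -/
structure Gauge (N : Cp X → ℝ) : Prop where
  nonneg : ∀ f, 0 ≤ N f
  le_one : ∀ f, N f ≤ 1
  add : ∀ f g, N (f + g) ≤ N f + N g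
  seq : ∀ w : ℕ → Cp X, Tendsto w atTop (𝓝 0) → Tendsto (fun n => N (w n)) atTop (𝓝 0)

/-- the sets used for the norm -/
def lev {G : Type v} [AddGroup G] (φ : Cp X →+ G) (V : ℕ → Set G) : ℕ → Set (Cp X)
  | 0 => univ
  | n + 1 => {f | φ f ∈ V (2 * n)}

theorem exists_gauge {G : Type v} [AddGroup G] [TopologicalSpace G] [IsTopologicalAddGroup G]
    (φ : Cp X →+ G) (hφ : SeqContinuous φ) (U : Set G) (hU : U ∈ 𝓝 (0 : G)) :
    ∃ N : Cp X → ℝ, Gauge N ∧ ∀ f, N f < 1 / 2 → φ f ∈ U := by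
  obtain ⟨V, hV0, hV1, _, hV3⟩ := exists_nhds_seq U hU
  have hz : ∀ n, (0 : G) ∈ V n := fun n => mem_of_mem_nhds (hV1 n)
  have hVs : ∀ n, V (n + 1) ⊆ V n := by
    intro n a ha
    have := hV3 n a 0 ha (hz _)
    simpa using this
  have hu : lev φ V 0 = univ := rfl
  have h0 : ∀ n, (0 : Cp X) ∈ lev φ V n := by
    intro n
    cases n with
    | zero => exact mem_univ _
    | succ n =>
      change φ 0 ∈ V (2 * n)
      rw [map_zero]; exact hz _
  have hanti : Antitone (lev φ V) := by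
    apply antitone_nat_of_succ_le
    intro n f hf
    cases n with
    | zero => exact mem_univ _
    | succ n =>
      change φ f ∈ V (2 * n)
      have h1 : φ f ∈ V (2 * n + 1 + 1) := hf
      exact hVs _ (hVs _ h1)
  have h3 : ∀ n a b c, a ∈ lev φ V (n + 1) → b ∈ lev φ V (n + 1) → c ∈ lev φ V (n + 1) →
      a + (b + c) ∈ lev φ V n := by
    intro n a b c ha hb hc
    cases n with
    | zero => exact mem_univ _
    | succ n =>
      change φ (a + (b + c)) ∈ V (2 * n)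
      have h1 : φ a ∈ V (2 * n + 1 + 1) := ha
      have h2 : φ b ∈ V (2 * n + 1 + 1) := hb
      have h3 : φ c ∈ V (2 * n + 1 + 1) := hc
      rw [map_add, map_add]
      exact hV3 _ _ _ (hVs _ h1) (hV3 _ _ _ h2 h3)
  refine ⟨bk (lev φ V), ⟨fun f => bk_nonneg f, fun f => ?_, fun f g => bk_add hu f g, ?_⟩, ?_⟩
  · have : f ∈ lev φ V 0 := mem_univ _
    simpa using bk_le this
  · intro w hw
    rw [Metric.tendsto_atTop]
    intro ε hε
    obtain ⟨n, hn⟩ := exists_pow_lt_of_lt_one hε (show (1 / 2 : ℝ) < 1 by norm_num)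
    have h4 := hφ hw
    rw [map_zero] at h4
    have h5 : ∀ᶠ k in atTop, w k ∈ lev φ V (n + 1) := h4 (hV1 (2 * n))
    obtain ⟨K, hK⟩ := eventually_atTop.mp h5
    refine ⟨K, fun k hk => ?_⟩
    rw [Real.dist_eq, sub_zero, abs_of_nonneg (bk_nonneg _)]
    have h6 := bk_le (hK k hk)
    have h7 : (1 / 2 : ℝ) ^ (n + 1) ≤ (1 / 2 : ℝ) ^ n :=
      pow_le_pow_of_le_one (by norm_num) (by norm_num) (Nat.le_succ n)
    linarith
  · intro f hf
    have h4 : bk (lev φ V) f < (1 / 2 : ℝ) ^ 1 := by rw [pow_one]; exact hf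
    have h5 := mem_of_bk_lt hu h0 hanti h3 h4
    have h6 : φ f ∈ V (2 * 0) := h5
    rw [Nat.mul_zero] at h6
    exact hV0 h6

end Pool.Agent.Lib.MP_174f4a_gt.SC
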