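import Pool.Agent.Lib.MP_174f4a_gt.SC.Spec

/-!
Module PCC: `C_c(X)` for Polish spaces `X`: compactly carried, and Frechet-Urysohn only if `X` is locally
compact.
-/

set_option autoImplicit false

namespace Pool.Agent.Lib.MP_174f4a_gt.SC

open Topology Filter Set

universe u v

namespace PCCM

/-- an increasing sequence of open sets which cover `X` eventually contains every compact set -/
lemma subset_of_cover {X : Type u} [TopologicalSpace X] {L : Set X} (hL : IsCompact L)
    (O : ℕ → Set X) (hO : ∀ n, IsOpen (O n)) (hmono : Monotone O) (hcov : ∀ x, ∃ n, x ∈ O n) :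
    ∀ᶠ n in atTop, L ⊆ O n := by
  obtain ⟨N, hN⟩ := hL.elim_directed_cover O hO (fun x _ => by
    rw [mem_iUnion]; exact hcov x) hmono.directed_le
  filter_upwards [eventually_ge_atTop N] with n hn
  exact hN.trans (hmono hn)

lemma nonneg {X : Type u} [TopologicalSpace X] {ν : Set X → ℝ} (hν : KSubmeasure ν) {U : Set X}
    (hU : IsCoz U) : 0 ≤ ν U := by
  rw [← hν.empty]
  exact hν.mono _ _ IsCoz.empty hU (empty_subset _)

lemma iUnion_lt_le {X : Type u} [TopologicalSpace X] {ν : Set X → ℝ} (hν : KSubmeasure ν)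
    (U : ℕ → Set X) (hU : ∀ n, IsCoz (U n)) (e : ℕ → ℝ) (he : ∀ n, ν (U n) ≤ e n) :
    ∀ m, ν (⋃ n, ⋃ (_ : n < m), U n) ≤ ∑ n ∈ Finset.range m, e n := by
  intro m
  induction m with
  | zero => simp [hν.empty]
  | succ m ih =>
    have h1 : (⋃ n, ⋃ (_ : n < m + 1), U n) = (⋃ n, ⋃ (_ : n < m), U n) ∪ U m := by
      ext x
      simp only [mem_iUnion, mem_union, exists_prop]
      constructor
      · rintro ⟨k, hk, hx⟩
        rcases Nat.lt_succ_iff_lt_or_eq.mp hk with h | h
        · exact Or.inl ⟨k, h, hx⟩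
        · right; rw [← h]; exact hx
      · rintro (⟨k, hk, hx⟩ | hx)
        · exact ⟨k, by omega, hx⟩
        · exact ⟨m, by omega, hx⟩
    rw [h1, Finset.sum_range_succ]
    have h2 := hν.union _ _ (IsCoz.iUnion_lt U hU m) (hU m)
    have h3 := he m
    linarith

end PCCM

/-- On a Polish space all submeasures as in `CompactlyCarried` are carried by compact sets. -/
theorem compactlyCarried_of_polish (X : Type u) [TopologicalSpace X] [PolishSpace X] :
    CompactlyCarried X := by
  classical
  intro ν hν ε hε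
  rcases isEmpty_or_nonempty X with hE | hE
  · refine ⟨∅, isCompact_empty, fun g hg _ => ?_⟩
    have : {x : X | 1 < |g x|} = ∅ := by
      ext x
      exact hE.elim x
    rw [this, hν.empty]
    exact hε.le
  let _ := TopologicalSpace.upgradeIsCompletelyMetrizable X
  let d : ℕ → X := TopologicalSpace.denseSeq X
  have hd : ∀ x (r : ℝ), 0 < r → ∃ i, dist x (d i) < r := fun x r hr =>
    Metric.denseRange_iff.mp (TopologicalSpace.denseRange_denseSeq X) x r hr
  let S : ℕ → Set X := fun k => d '' Iic k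
  have hSne : ∀ k, (S k).Nonempty := fun k => ⟨d 0, 0, Nat.zero_le k, rfl⟩
  have hSfin : ∀ k, (S k).Finite := fun k => (Set.finite_Iic k).image d
  have hSmono : Monotone S := fun a b h => image_mono (Iic_subset_Iic.mpr h)
  let v : ℕ → X → ℝ := fun k x => Metric.infDist x (S k)
  have hv : ∀ k, Continuous (v k) := fun k => Metric.continuous_infDist_pt (S k)
  have hvanti : ∀ a b, a ≤ b → ∀ x, v b x ≤ v a x := fun a b h x =>
    Metric.infDist_le_infDist_of_subset (hSmono h) (hSne a)
  have hvlt : ∀ x (r : ℝ), 0 < r → ∃ k, v k x < r := by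
    intro x r hr
    obtain ⟨i, hi⟩ := hd x r hr
    exact ⟨i, (Metric.infDist_lt_iff (hSne i)).mpr ⟨d i, ⟨i, le_refl i, rfl⟩, hi⟩⟩
  let r : ℕ → ℝ := fun n => (1 / 2 : ℝ) ^ n
  have hr : ∀ n, 0 < r n := fun n => by positivity
  -- the numbers `k n`
  have hk : ∀ n, ∃ k, ν {x | r n < v k x} ≤ ε / 4 * (1 / 2 : ℝ) ^ n := by
    intro n
    have h1 := hν.cont (fun k => {x | r n < v k x}) (fun k => IsCoz.gt (hv k) _) (by
      intro K hK
      have h2 := PCCM.subset_of_cover hK (fun k => {x | v k x < r n})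
        (fun k => isOpen_lt (hv k) continuous_const)
        (fun a b h x hx => lt_of_le_of_lt (hvanti a b h x) hx) (fun x => hvlt x _ (hr n))
      filter_upwards [h2] with k hk
      rw [Set.disjoint_left]
      intro x hx hxK
      exact lt_asymm (show r n < v k x from hx) (hk hxK))
    have h3 : ∀ᶠ k in atTop, ν {x | r n < v k x} < ε / 4 * (1 / 2 : ℝ) ^ n :=
      h1.eventually (gt_mem_nhds (by positivity))
    obtain ⟨k, hk⟩ := h3.exists
    exact ⟨k, hk.le⟩
  choose k hk using hk
  let K : Set X := ⋂ n, {x | v (k n) x ≤ 2 * r n}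
  have hKclosed : IsClosed K := isClosed_iInter fun n => isClosed_le (hv (k n)) continuous_const
  have hKcomp : IsCompact K := by
    refine TotallyBounded.isCompact_of_isClosed ?_ hKclosed
    rw [Metric.totallyBounded_iff]
    intro δ hδ
    obtain ⟨n, hn⟩ := exists_pow_lt_of_lt_one (show (0 : ℝ) < δ / 2 by linarith)
      (show (1 / 2 : ℝ) < 1 by norm_num)
    refine ⟨S (k n), hSfin _, fun x hx => ?_⟩
    have h1 : v (k n) x ≤ 2 * r n := mem_iInter.mp hx n
    have h2 : v (k n) x < δ := by
      have : r n < δ / 2 := hn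
      linarith
    obtain ⟨y, hy, hxy⟩ := (Metric.infDist_lt_iff (hSne (k n))).mp h2
    rw [mem_iUnion₂]
    exact ⟨y, hy, hxy⟩
  refine ⟨K, hKcomp, fun g hg hgK => ?_⟩
  have hg1 : IsCoz {x | 1 < |g x|} := IsCoz.gt hg.abs 1
  let W : ℕ → Set X := fun n => {x | v (k n) x < 2 * r n}
  have hW : ∀ n, IsCoz (W n) := fun n => IsCoz.lt (hv (k n)) _
  let V : ℕ → Set X := fun m => {x | 1 < |g x|} ∩ ⋂ n, ⋂ (_ : n < m), W n
  have hV : ∀ m, IsCoz (V m) := fun m => hg1.inter (IsCoz.iInter_lt W hW m)
  have hVlim : Tendsto (fun m => ν (V m)) atTop (𝓝 0) := by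
    apply hν.cont V hV
    intro L hL
    let O : ℕ → Set X := fun m => {x | |g x| < 1} ∪ ⋃ n, ⋃ (_ : n < m), {x | 2 * r n < v (k n) x}
    have h1 := PCCM.subset_of_cover hL O (fun m => (isOpen_lt hg.abs continuous_const).union
      (isOpen_iUnion fun n => isOpen_iUnion fun _ => isOpen_lt continuous_const (hv (k n))))
      (by
        intro a b hab x hx
        rcases hx with hx | hx
        · exact Or.inl hx
        · right
          simp only [mem_iUnion, exists_prop] at hx ⊢
          obtain ⟨n, hn, hx⟩ := hx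
          exact ⟨n, lt_of_lt_of_le hn hab, hx⟩)
      (by
        intro x
        by_cases hx : x ∈ K
        · refine ⟨0, Or.inl ?_⟩
          show |g x| < 1
          rw [hgK x hx, abs_zero]
          exact one_pos
        · have h2 : ∃ n, ¬ v (k n) x ≤ 2 * r n := by
            by_contra hall
            push Not at hall
            exact hx (mem_iInter.mpr hall)
          obtain ⟨n, hn⟩ := h2
          refine ⟨n + 1, Or.inr ?_⟩
          simp only [mem_iUnion, exists_prop]
          exact ⟨n, Nat.lt_succ_self n, not_le.mp hn⟩)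
    filter_upwards [h1] with m hm
    rw [Set.disjoint_left]
    intro x hx hxL
    have h3 : 1 < |g x| := hx.1
    have h4 := hx.2
    simp only [mem_iInter] at h4
    rcases hm hxL with h5 | h5
    · exact lt_asymm h3 h5
    · simp only [mem_iUnion, exists_prop] at h5
      obtain ⟨n, hn, h6⟩ := h5
      exact lt_asymm (show 2 * r n < v (k n) x from h6) (h4 n hn)
  have hbound : ∀ m, ν {x | 1 < |g x|} ≤ ν (V m) + ε / 2 := by
    intro m
    have h1 : {x | 1 < |g x|} ⊆ V m ∪ ⋃ n, ⋃ (_ : n < m), {x | r n < v (k n) x} := by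
      intro x hx
      by_cases h2 : ∃ n, n < m ∧ r n < v (k n) x
      · right
        simp only [mem_iUnion, exists_prop]
        exact h2
      · left
        push Not at h2
        refine ⟨hx, ?_⟩
        simp only [mem_iInter]
        intro n hn
        have h3 := h2 n hn
        have h4 := hr n
        show v (k n) x < 2 * r n
        linarith
    have hcU : ∀ n, IsCoz {x | r n < v (k n) x} := fun n => IsCoz.gt (hv (k n)) _
    have h2 := hν.mono _ _ hg1 ((hV m).union (IsCoz.iUnion_lt _ hcU m)) h1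
    have h3 := hν.union _ _ (hV m) (IsCoz.iUnion_lt _ hcU m)
    have h4 := PCCM.iUnion_lt_le hν (fun n => {x | r n < v (k n) x}) hcU
      (fun n => ε / 4 * (1 / 2 : ℝ) ^ n) hk m
    have h5 : ∑ n ∈ Finset.range m, ε / 4 * (1 / 2 : ℝ) ^ n ≤ ε / 2 := by
      rw [← Finset.mul_sum]
      have h6 : ∑ n ∈ Finset.range m, (1 / 2 : ℝ) ^ n ≤ 2 := by
        have h7 := geom_sum_eq (show (1 / 2 : ℝ) ≠ 1 by norm_num) m
        rw [h7]
        have h8 : (0 : ℝ) ≤ (1 / 2 : ℝ) ^ m := by positivity
        have h9 : ((1 / 2 : ℝ) ^ m - 1) / (1 / 2 - 1) = 2 - 2 * (1 / 2 : ℝ) ^ m := by ring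
        rw [h9]
        linarith
      nlinarith
    linarith
  have hlim : ν {x | 1 < |g x|} ≤ 0 + ε / 2 :=
    ge_of_tendsto' (hVlim.add_const (ε / 2)) hbound
  linarith

/-- If `X` is first countable and completely regular and `C_c(X)` is Frechet-Urysohn, then every point of
`X` has a compact neighbourhood. -/
theorem weaklyLocallyCompact_of_frechetUrysohn (X : Type u) [TopologicalSpace X]
    [FirstCountableTopology X] [CompletelyRegularSpace X] [FrechetUrysohnSpace C(X, ℝ)] :
    WeaklyLocallyCompactSpace X := by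
  classical
  refine ⟨fun x₀ => ?_⟩
  by_contra hcon
  push Not at hcon
  obtain ⟨V, hV⟩ := (𝓝 x₀).exists_antitone_basis
  let A : ℕ → Set C(X, ℝ) := fun n =>
    {f | (∀ x, 1 / ((n : ℝ) + 1) ≤ f x) ∧ ∃ x ∈ V n, 1 ≤ f x}
  have hcl : ∀ n, ContinuousMap.const X (1 / ((n : ℝ) + 1)) ∈ closure (A n) := by
    intro n
    have hb := (Metric.nhds_basis_ball (x := (1 / ((n : ℝ) + 1)))).nhds_continuousMapConst (X := X)
    rw [mem_closure_iff_nhds_basis hb]
    rintro ⟨K, δ⟩ ⟨hK, hδ⟩
    have hK' : IsCompact (closure K) := hK.closure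
    have h1 : ¬ V n ⊆ closure K := by
      intro h
      exact hcon (closure K) hK' (mem_of_superset (hV.toHasBasis.mem_of_mem trivial) h)
    obtain ⟨x, hxV, hxK⟩ := Set.not_subset.mp h1
    obtain ⟨g, hg, hgx, hgK⟩ := CompletelyRegularSpace.completely_regular x (closure K)
      isClosed_closure hxK
    have hn : (0 : ℝ) < 1 / ((n : ℝ) + 1) := by positivity
    refine ⟨⟨fun y => 1 / ((n : ℝ) + 1) + (1 - (g y : ℝ)), by fun_prop⟩, ⟨fun y => ?_, x, hxV, ?_⟩,
      fun y hy => ?_⟩
    · show 1 / ((n : ℝ) + 1) ≤ 1 / ((n : ℝ) + 1) + (1 - (g y : ℝ))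
      have := (g y).2.2
      linarith
    · show 1 ≤ 1 / ((n : ℝ) + 1) + (1 - (g x : ℝ))
      have h3 : ((g x : unitInterval) : ℝ) = 0 := by rw [hgx]; rfl
      rw [h3]
      linarith
    · show 1 / ((n : ℝ) + 1) + (1 - (g y : ℝ)) ∈ Metric.ball (1 / ((n : ℝ) + 1)) δ
      rw [hgK (subset_closure hy)]
      simp [hδ]
  have h0 : (0 : C(X, ℝ)) ∈ closure (⋃ n, A n) := by
    have h1 : Tendsto (fun n : ℕ => ContinuousMap.const X (1 / ((n : ℝ) + 1))) atTop (𝓝 0) := by
      have h2 : Continuous (fun c : ℝ => ContinuousMap.const X c) := ContinuousMap.continuous_const'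
      have h3 := (h2.tendsto 0).comp (tendsto_one_div_add_atTop_nhds_zero_nat (𝕜 := ℝ))
      exact h3
    have h2 : ∀ n : ℕ, ContinuousMap.const X (1 / ((n : ℝ) + 1)) ∈ closure (⋃ n, A n) := fun n =>
      closure_mono (subset_iUnion A n) (hcl n)
    exact isClosed_closure.mem_of_tendsto h1 (Eventually.of_forall h2)
  obtain ⟨F, hF, hF0⟩ := mem_closure_iff_seq_limit.mp h0
  have h1 : ∀ j, ∃ n, F j ∈ A n := fun j => mem_iUnion.mp (hF j)
  choose n hn using h1
  choose hge x hxV hx1 using hn
  have hunif := ContinuousMap.tendsto_iff_forall_isCompact_tendstoUniformlyOn.mp hF0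
  -- the indices tend to infinity
  have hninf : ∀ N : ℕ, ∀ᶠ j in atTop, N ≤ n j := by
    intro N
    have h2 := Metric.tendstoUniformlyOn_iff.mp (hunif {x₀} isCompact_singleton)
      (1 / ((N : ℝ) + 1)) (by positivity)
    filter_upwards [h2] with j hj
    have h3 := hj x₀ (mem_singleton x₀)
    rw [dist_comm, Real.dist_eq, ContinuousMap.zero_apply, sub_zero] at h3
    have h4 := hge j x₀
    have h5 : 1 / ((n j : ℝ) + 1) < 1 / ((N : ℝ) + 1) :=
      lt_of_le_of_lt (h4.trans (le_abs_self _)) h3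
    have h6 : (N : ℝ) + 1 < (n j : ℝ) + 1 := by
      by_contra h7
      push Not at h7
      exact absurd h5 (not_lt.mpr (one_div_le_one_div_of_le (by positivity) h7))
    have h8 : (N : ℝ) < (n j : ℝ) := by linarith
    exact_mod_cast h8.le
  have hxlim : Tendsto x atTop (𝓝 x₀) := by
    rw [tendsto_def]
    intro U hU
    obtain ⟨N, -, hN⟩ := hV.toHasBasis.mem_iff.mp hU
    filter_upwards [hninf N] with j hj
    exact hN (hV.antitone hj (hxV j))
  have hK : IsCompact (insert x₀ (range x)) := hxlim.isCompact_insert_range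
  have h2 := Metric.tendstoUniformlyOn_iff.mp (hunif _ hK) 1 one_pos
  obtain ⟨j, hj⟩ := h2.exists
  have h3 := hj (x j) (mem_insert_of_mem _ (mem_range_self j))
  rw [dist_comm, Real.dist_eq, ContinuousMap.zero_apply, sub_zero] at h3
  have h4 := hx1 j
  have h5 := le_abs_self (F j (x j))
  linarith

/-- For a Polish space `X`, `C_c(X)` is Frechet-Urysohn if and only if `X` is locally compact. -/
theorem frechetUrysohn_iff_of_polish (X : Type u) [TopologicalSpace X] [PolishSpace X] :
    FrechetUrysohnSpace C(X, ℝ) ↔ LocallyCompactSpace X := by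
  constructor
  · intro h
    have : WeaklyLocallyCompactSpace X := weaklyLocallyCompact_of_frechetUrysohn X
    infer_instance
  · intro h
    infer_instance

/-- The space of irrational numbers is not locally compact. -/
theorem not_locallyCompact_baire : ¬ LocallyCompactSpace (ℕ → ℕ) := by
  classical
  intro h
  obtain ⟨K, hK, hK0⟩ := exists_compact_mem_nhds (fun _ : ℕ => (0 : ℕ))
  rw [mem_nhds_iff] at hK0
  obtain ⟨U, hUK, hU, h0⟩ := hK0
  rw [isOpen_pi_iff] at hU
  obtain ⟨I, u, hu, hsub⟩ := hU _ h0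
  obtain ⟨j, hj⟩ := Infinite.exists_notMem_finset I
  have h1 : (univ : Set ℕ) ⊆ (fun x : ℕ → ℕ => x j) '' K := by
    intro m _
    refine ⟨Function.update (fun _ => 0) j m, hUK (hsub ?_), by simp⟩
    intro i hi
    have hij : i ≠ j := by
      rintro rfl
      exact hj hi
    rw [Function.update_of_ne hij]
    exact (hu i hi).2
  have h2 : IsCompact ((fun x : ℕ → ℕ => x j) '' K) := hK.image (continuous_apply j)
  have h3 : ((fun x : ℕ → ℕ => x j) '' K).Finite := h2.finite_of_discrete
  exact Set.infinite_univ (h3.subset h1)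

end Pool.Agent.Lib.MP_174f4a_gt.SC
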