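import Pool.Agent.Lib.MP_174f4a_gt.SC.CMA
import Pool.Agent.Lib.MP_174f4a_gt.SC.CMB

/-!
Module PCP: `C_p(X)` for Polish spaces `X`.
-/

set_option autoImplicit false

namespace Pool.Agent.Lib.MP_174f4a_gt.SC

open Topology Filter Set

universe u v

/-- If `X` is Polish and `C_p(X)` is an s-group then `X` is countable. -/
theorem countable_of_isSGroup_of_polish (X : Type u) [TopologicalSpace X] [PolishSpace X]
    (hs : IsSGroup.{u, u} (Cp X)) : Countable X := by
  have hfc : FinitelyCarried X := finitelyCarried_of_isSGroup hs
  by_contra hnc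
  let _ := TopologicalSpace.upgradeIsCompletelyMetrizable X
  have h1 : ¬ (univ : Set X).Countable := by
    intro h
    exact hnc (countable_univ_iff.mp h)
  obtain ⟨c, _, hc, hinj⟩ := isClosed_univ.exists_nat_bool_injection_of_not_countable h1
  have hne : Nonempty X := by
    by_contra hem
    rw [not_nonempty_iff] at hem
    exact hnc inferInstance
  let h : X → ℕ → ℝ := fun x n => dist x (TopologicalSpace.denseSeq X n)
  have hh : Continuous h := continuous_pi (fun n => continuous_id.dist continuous_const)
  have hhinj : Function.Injective h := by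
    intro x y hxy
    by_contra hne'
    have hd : 0 < dist x y := dist_pos.mpr hne'
    obtain ⟨n, hn⟩ := Metric.denseRange_iff.mp (TopologicalSpace.denseRange_denseSeq X) x
      (dist x y / 2) (by linarith)
    have h3 : dist x (TopologicalSpace.denseSeq X n) = dist y (TopologicalSpace.denseSeq X n) :=
      congrFun hxy n
    have h4 := dist_triangle_right x y (TopologicalSpace.denseSeq X n)
    linarith
  have hK : IsCompact (Set.range c) := isCompact_range hc
  apply specCMA.{u} X _ hK h hh _ hfc
  rw [← Set.range_comp]
  intro hcc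
  have h5 : Countable (ℕ → Bool) := by
    have h6 : Function.Injective (h ∘ c) := hhinj.comp hinj
    have h7 : Countable (Set.range (h ∘ c)) := hcc.to_subtype
    exact (Set.rangeFactorization_injective.mpr h6).countable
  obtain ⟨f, hf⟩ := exists_surjective_nat (ℕ → Bool)
  obtain ⟨n, hn⟩ := hf (fun k => !f k k)
  have h8 := congrFun hn n
  simp at h8

/-- If `X` is Polish then `C_p(X)` is an s-group if and only if it is Frechet-Urysohn, if and only if
`X` is countable. -/
theorem cp_of_polish (X : Type u) [TopologicalSpace X] [PolishSpace X] :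
    (IsSGroup.{u, u} (Cp X) ↔ Countable X) ∧ (FrechetUrysohnSpace (Cp X) ↔ Countable X) := by
  have h1 : Countable X → FrechetUrysohnSpace (Cp X) := fun _ =>
    specCMB.{u} X (fun n => inferInstance) (fun h _ => Set.countable_range h)
  have h2 : FrechetUrysohnSpace (Cp X) → IsSGroup.{u, u} (Cp X) := by
    intro hF
    refine ⟨inferInstance, ?_⟩
    intro G _ _ _ _ φ hφ
    exact hφ.continuous
  have h3 := countable_of_isSGroup_of_polish X
  exact ⟨⟨h3, fun h => h2 (h1 h)⟩, ⟨fun h => h3 (h2 h), h1⟩⟩

end Pool.Agent.Lib.MP_174f4a_gt.SC
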