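import Pool.Agent.Lib.MP_174f4a_gt.SC.Spec

/-!
Module POL: Q1 for `C_p(X)` with `X` σ-compact or Polish.
-/

set_option autoImplicit false

namespace Pool.Agent.Lib.MP_174f4a_gt.SC

open Topology Filter Set MeasureTheory

universe u v

/-- **POL** -/
theorem specPOL (hCMA : SpecCMA.{u}) (hCMB : SpecCMB.{u}) : SpecPOL.{u} := by
  intro X _ _ hX
  constructor
  · intro hs
    have hfc : FinitelyCarried X := finitelyCarried_of_isSGroup hs
    rcases hX with hX | hX
    · apply hCMB X (fun n => inferInstance)
      intro h hh
      by_contra hnc
      have h1 : Set.range h = ⋃ n, h '' (compactCovering X n) := by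
        rw [← image_iUnion, iUnion_compactCovering, image_univ]
      have h2 : ∃ n, ¬ (h '' (compactCovering X n)).Countable := by
        by_contra hall
        push Not at hall
        apply hnc
        rw [h1]
        exact countable_iUnion hall
      obtain ⟨n, hn⟩ := h2
      exact hCMA X _ (isCompact_compactCovering X n) h hh hn hfc
    · have hcount : Countable X := by
        by_contra hnc
        let _ := TopologicalSpace.upgradeIsCompletelyMetrizable X
        have h1 : ¬ (univ : Set X).Countable := by
          intro h
          exact hnc (countable_univ_iff.mp h)
        obtain ⟨c, _, hc, hinj⟩ := isClosed_univ.exists_nat_bool_injection_of_not_countable h1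
        have hne : Nonempty X := by
          by_contra hem
          rw [not_nonempty_iff] at hem
          exact hnc inferInstance
        let h : X → ℕ → ℝ := fun x n => dist x (TopologicalSpace.denseSeq X n)
        have hh : Continuous h := continuous_pi (fun n => continuous_id.dist continuous_const)
        have hhinj : Function.Injective h := by
          intro x y hxy
          by_contra hne'
          have hd : 0 < dist x y := dist_pos.mpr hne'
          obtain ⟨n, hn⟩ := Metric.denseRange_iff.mp (TopologicalSpace.denseRange_denseSeq X) x
            (dist x y / 2) (by linarith)
          have h3 : dist x (TopologicalSpace.denseSeq X n) = dist y (TopologicalSpace.denseSeq X n) :=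
            congrFun hxy n
          have h4 := dist_triangle_right x y (TopologicalSpace.denseSeq X n)
          linarith
        have hK : IsCompact (Set.range c) := isCompact_range hc
        apply hCMA X _ hK h hh _ hfc
        rw [← Set.range_comp]
        intro hcc
        have h5 : Countable (ℕ → Bool) := by
          have h6 : Function.Injective (h ∘ c) := hhinj.comp hinj
          have h7 : Countable (Set.range (h ∘ c)) := hcc.to_subtype
          exact (Set.rangeFactorization_injective.mpr h6).countable
        obtain ⟨f, hf⟩ := exists_surjective_nat (ℕ → Bool)
        obtain ⟨n, hn⟩ := hf (fun k => !f k k)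
        have h8 := congrFun hn n
        simp at h8
      exact hCMB X (fun n => inferInstance) (fun h _ => Set.countable_range h)
  · intro hF
    refine ⟨inferInstance, ?_⟩
    intro G _ _ _ _ φ hφ
    exact hφ.continuous

end Pool.Agent.Lib.MP_174f4a_gt.SC
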