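import Pool.Agent.Lib.MP_174f4a_gt.SC.Crit

/-!
# MP_174f4a_gt: which `C_p(X)`, `C_c(X)` are s-groups.  Specification of the remaining modules.

Captain helper9.  Proved already: `SC.finitelyCarried_of_isSGroup` (file `SC/Imp.lean`),
`SC.isSGroup_of_finitelyCarried` (`SC/Crit.lean`).  The module `XXX` is the file
`Pool/Agent/Lib/MP_174f4a_gt/SC/XXX.lean`, namespace `Pool.Agent.Lib.MP_174f4a_gt.SC`, it imports this file and
proves `theorem specXXX : SpecXXX` (universes exactly as here); auxiliary lemmas in the namespace `XXXM`.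
All modules are independent of each other.
-/

set_option autoImplicit false

namespace Pool.Agent.Lib.MP_174f4a_gt.SC

open Topology Filter Set MeasureTheory

universe u v

/-- A submeasure on the cozero sets of `X` which tends to zero along every sequence of cozero sets
such that each compact set meets only finitely many of them. -/
structure KSubmeasure {X : Type u} [TopologicalSpace X] (ν : Set X → ℝ) : Prop where
  empty : ν ∅ = 0
  mono : ∀ U V, IsCoz U → IsCoz V → U ⊆ V → ν U ≤ ν V
  union : ∀ U V, IsCoz U → IsCoz V → ν (U ∪ V) ≤ ν U + ν V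
  cont : ∀ U : ℕ → Set X, (∀ n, IsCoz (U n)) →
    (∀ K : Set X, IsCompact K → ∀ᶠ n in atTop, Disjoint (U n) K) →
    Tendsto (fun n => ν (U n)) atTop (𝓝 0)

/-- Every such submeasure is carried by compact sets, up to `ε`. -/
def CompactlyCarried (X : Type u) [TopologicalSpace X] : Prop :=
  ∀ ν : Set X → ℝ, KSubmeasure ν → ∀ ε : ℝ, 0 < ε →
    ∃ K : Set X, IsCompact K ∧ ∀ g : X → ℝ, Continuous g → (∀ x ∈ K, g x = 0) →
      ν {x | 1 < |g x|} ≤ ε

/-- KCA (200 lines): a copy of `SC/Imp.lean` for the compact-open topology.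

PROOF.  `bds`, `lnorm` as in `SC/Imp.lean` (all sets `{x | a < |f x|}` are cozero sets, `IsCoz.gt`; `KSubmeasure` has `mono`,
`union` for cozero sets), the seminorm on a copy `LK X` of `C(X, ℝ)`.  Sequential continuity: let `u n → g` in `C(X, ℝ)`,
`f n = u n - g`.  For `ε > 0` the cozero sets `U n = {x | ε / 2 < |f n x|}` are eventually disjoint from every compact `K`
(`ContinuousMap.tendsto_iff_forall_isCompact_tendstoUniformlyOn`), so `ν (U n) ≤ ε / 2` eventually, so `lnorm (f n) ≤ ε / 2`.
So the identity `ι : C(X, ℝ) → LK X` is continuous (via `SeparationQuotient`, as in `SC/Imp.lean`).  Given `ε`, there are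
a compact `K` and `δ > 0` such that `lnorm f < ε` for all `f` with `|f| < δ` on `K`
(`Filter.HasBasis.nhds_continuousMapConst` for `Metric.nhds_basis_ball`, `c = 0`).  Let `g` be continuous, `g = 0` on `K`:
`f = ε g` has `lnorm f < ε`, so `ν {ε < |ε g|} ≤ ε` (`lt_of_lnorm_lt`), and this set is `{1 < |g|}`. -/
def SpecKCA : Prop :=
  ∀ (X : Type u) [TopologicalSpace X], IsSGroup.{u, u} C(X, ℝ) → CompactlyCarried X

/-- KCB (250 lines): a copy of `SC/Norm.lean` (the second part), `SC/Sub.lean` (the first half), `SC/Crit.lean` for the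
compact-open topology.

PROOF.  Let `φ : C(X, ℝ) →+ G` be sequentially continuous, `U` a neighbourhood of `0`.  As in `exists_gauge` (`SC/Norm.lean`;
the lemmas `chain`, `bk_le`, `bk_add`, `mem_of_bk_lt` there are general) there is `N : C(X, ℝ) → ℝ` with values in `[0, 1]`,
subadditive, `N (w n) → 0` if `w n → 0` in `C(X, ℝ)`, `φ f ∈ U` if `N f < 1 / 2`.  `ν A = sup {N f | f = 0 outside of A}` (`sub0`).
`KSubmeasure ν`: `empty`, `mono`, `union` as in `SC/Sub.lean` (`continuous_part`).  `cont`: choose `f n` vanishing outside of `U n`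
with `ν (U n) ≤ N (f n) + 1 / (n + 1)`; every compact `K` is disjoint from `U n` for large `n`, so `f n = 0` on `K`, so `f n → 0` in
`C(X, ℝ)`.  Let `K` be compact with `ν {1 < |g|} ≤ 1 / 8` for all continuous `g` with `g = 0` on `K`.
(1) `N f ≤ 1 / 8` if `f = 0` on `K`: `t n x = max (-1/(n+1)) (min (1/(n+1)) (f x))`, `t n → 0` in `C(X, ℝ)` (uniformly),
`f - t n = 0` outside of `{1 < |(n + 1) f|}`, so `N f ≤ 1 / 8 + N (t n)` for all `n`.
(2) There is `n` such that `N f < 1 / 2` if `|f| < 1 / (n + 1)` on `K`: as in `gauge_nhds` (`SC/Crit.lean`): otherwise `f n` with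
`|f n| < 1 / (n + 1)` on `K`, `N (f n) ≥ 1 / 2`, `g n` the truncation of `f n` at `1 / (n + 1)`, `g n → 0`, `f n - g n = 0` on `K`.
(3) `{f | ∀ x ∈ K, |f x| < 1 / (n + 1)}` is a neighbourhood of `0` (`ContinuousMap.isOpen_setOf_mapsTo`). -/
def SpecKCB : Prop :=
  ∀ (X : Type u) [TopologicalSpace X], CompactlyCarried X → IsSGroup.{u, v} C(X, ℝ)

/-- CMA (250 lines).  A compact set with an uncountable image in `ℝ ^ ℕ` carries a diffused measure.

PROOF.  `Y = h '' K` is compact and not countable, `Y'` = the subtype (a compact metrizable space, so Polish, and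
uncountable).  There is a Borel probability measure `λ` on `Y'` with `λ {y} = 0` for all `y`:
`PolishSpace.measurableEquivOfNotCountable` between `ℝ` (or `unitInterval`) and `Y'`, the image of the Lebesgue measure on
`[0, 1]`.  `q : K → Y'` the restriction of `h`, a continuous surjection of compact Hausdorff spaces.
There is a positive linear functional `Λ` on `C(K, ℝ)` with `Λ (ψ ∘ q) = ∫ ψ dλ` for all `ψ ∈ C(Y', ℝ)`: M. Riesz extension
(`riesz_extension`) for the subspace `{ψ ∘ q}` (`ψ` is determined by `ψ ∘ q`, as `q` is onto; `ψ ∘ q ≥ 0` iff `ψ ≥ 0`;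
`y + (‖y‖ 1) ≥ 0`).  (Another way: an ultrafilter limit of averages of point measures.)  The theorem of Riesz
(`RealRMK.rieszMeasure`, `RealRMK.integral_rieszMeasure` for `C_c(K, ℝ)`) gives a finite Borel measure `m` on `K` with
`∫ f dm = Λ f`, and the image of `m` under `q` is `λ` (`ext_of_forall_integral_eq_of_IsFiniteMeasure`).
`ν B = (m (K ∩ B)).toReal` for `B ⊆ X` (the image of `m` under the inclusion of `K`); Baire sets are Borel sets (cozero
sets are open).  `ContSubmeasure ν`: `mono`, `union` from the measure, `cont`: `tendsto_measure_iInter_atTop` or similar, `m` is finite.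
`ν` is not finitely carried (`ε = 1 / 2`): let `F` be finite, `U = h ⁻¹' (h '' F)ᶜ`: a cozero set (the function
`x ↦ Metric.infDist (h x) (h '' F)` for a metric on `ℕ → ℝ`, or the product over `p ∈ F` of
`∑' i, 2⁻ⁱ min(|h x i - h p i|, 1)`; `F = ∅`: `U = univ`), disjoint from `F`, and `ν U = λ (Y' \ h F) = 1`. -/
def SpecCMA : Prop :=
  ∀ (X : Type u) [TopologicalSpace X] [T2Space X] (K : Set X) (_ : IsCompact K)
    (h : X → ℕ → ℝ) (_ : Continuous h) (_ : ¬ (h '' K).Countable), ¬ FinitelyCarried X

/-- CMB (200 lines).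

PROOF.  Let `A ⊆ C_p(X)`, `f₀` in the closure of `A`; translating by `f₀` we may assume `f₀ = 0` (or keep `f₀`).
(1) There is a countable `A₀ ⊆ A` with `f₀ ∈ closure A₀`: for `n ≥ 1`, `k ≥ 1` the open sets
`W f = {x : Fin n → X | ∀ i, |f (x i) - f₀ (x i)| < 1 / k}`, `f ∈ A`, cover `Fin n → X` (`f₀` is in the closure; the points `x i` are
finitely many), so countably many of them cover (`LindelofSpace`); let `A₀` be the union over `n`, `k` of the corresponding
countable subsets of `A`.
(2) Let `A₀ = {f 0, f 1, ..}` (if `A₀` is empty there is nothing to prove), `h x = (f₀ x, f 0 x, f 1 x, ..)`, continuous, its range `Y`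
is countable.  For `y ∈ Y` choose `x_y` with `h x_y = y`.  The topology of pointwise convergence on the countable set
`D = {x_y}`: as `f₀ ∈ closure A₀` and `D` is countable, there is a sequence `g n ∈ A₀` with `g n x → f₀ x` for all `x ∈ D`
(enumerate `D = {d 0, d 1, ..}` and choose `g n` with `|g n (d i) - f₀ (d i)| < 1 / (n + 1)` for `i ≤ n`).  For every `x`,
`g n x = g n x_y` and `f₀ x = f₀ x_y` for `y = h x`, so `g n → f₀` in `C_p(X)`. -/
def SpecCMB : Prop :=
  ∀ (X : Type u) [TopologicalSpace X] (_ : ∀ n : ℕ, LindelofSpace (Fin n → X))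
    (_ : ∀ h : X → ℕ → ℝ, Continuous h → (Set.range h).Countable), FrechetUrysohnSpace (Cp X)

/-- POL (150 lines, from CMA, CMB).

PROOF.  `←`: a sequentially continuous map on a Frechet-Urysohn (so sequential) space is continuous.  `→`: by
`finitelyCarried_of_isSGroup`, `X` is `FinitelyCarried`.
`X` σ-compact: if `range h` is not countable then `h '' K` is not countable for one of countably many compact sets `K` which
cover `X` (`compactCovering`): contradiction to CMA.  So CMB (`Fin n → X` is σ-compact, so Lindelöf).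
`X` Polish: if `X` is not countable there is a continuous injection `c : (ℕ → Bool) → X`
(`IsClosed.exists_nat_bool_injection_of_not_countable`), `K = range c`, `h x = (dist x (denseSeq n))_n` is injective and continuous,
so `h '' K` is not countable (`ℕ → Bool` is not countable): contradiction to CMA.  So `X` is countable, and CMB. -/
def SpecPOL : Prop :=
  ∀ (X : Type u) [TopologicalSpace X] [T2Space X] (_ : SigmaCompactSpace X ∨ PolishSpace X),
    IsSGroup.{u, u} (Cp X) ↔ FrechetUrysohnSpace (Cp X)

end Pool.Agent.Lib.MP_174f4a_gt.SC
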